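import Mathlib

/-! # Integer polygons as unit-distance faces of sails: definitions -/

namespace H230R2.Sail

/-- The determinant of two plane vectors. -/
def det (p q : ℝ × ℝ) : ℝ := p.1 * q.2 - p.2 * q.1

/-- The inner product of two plane vectors. -/
def dot (a x : ℝ × ℝ) : ℝ := a.1 * x.1 + a.2 * x.2

/-- An integer point, seen in the real plane. -/
def toR (z : ℤ × ℤ) : ℝ × ℝ := ((z.1 : ℝ), (z.2 : ℝ))

/-- The set of integer points of the real plane. -/
def lattice : Set (ℝ × ℝ) := Set.range toR

/-- `v 0, v 1, ..., v (n-1)` (indices mod `n`) are the vertices of a convex `n`-gon, listed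
counterclockwise: for every `i`, all vertices other than `v i` and `v (i+1)` lie strictly to the
left of the directed line from `v i` to `v (i+1)`. -/
def IsPolygon (n : ℕ) (v : ZMod n → ℤ × ℤ) : Prop :=
  3 ≤ n ∧ ∀ i j : ZMod n, j ≠ i → j ≠ i + 1 →
    0 < det (toR (v (i + 1)) - toR (v i)) (toR (v j) - toR (v i))

/-- The integer polygon with the vertices `v i`. -/
def poly {n : ℕ} (v : ZMod n → ℤ × ℤ) : Set (ℝ × ℝ) :=
  convexHull ℝ (Set.range fun i => toR (v i))

/-- `Q` is an intersection of `k` closed half planes (or whole planes, or empty sets, when some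
`a j = 0`). -/
def IsMeet (k : ℕ) (Q : Set (ℝ × ℝ)) : Prop :=
  ∃ (a : Fin k → ℝ × ℝ) (c : Fin k → ℝ), Q = {x | ∀ j, dot (a j) x ≤ c j}

/-- `Q` is a convex `k`-gon (a convex polygon with exactly `k` sides, with arbitrary real
vertices): it is bounded, has interior points, and is an intersection of `k` closed half planes
but not of fewer. -/
def IsGon (k : ℕ) (Q : Set (ℝ × ℝ)) : Prop :=
  Bornology.IsBounded Q ∧ (interior Q).Nonempty ∧ IsMeet k Q ∧ ∀ k' < k, ¬ IsMeet k' Q

/-- `P` is `m`-realizable: there is a convex `(m+1)`-gon `Q` such that `P` lies in the interior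
of `Q` and the convex hull of the integer points of `Q` is `P`. -/
def Realizable (m : ℕ) (P : Set (ℝ × ℝ)) : Prop :=
  ∃ Q : Set (ℝ × ℝ), IsGon (m + 1) Q ∧ P ⊆ interior Q ∧ convexHull ℝ (Q ∩ lattice) = P

/-- The affine functional which is positive strictly to the left of the directed line
from `v i` to `v (i+1)`, zero on that line and negative strictly to the right of it. -/
def side {n : ℕ} (v : ZMod n → ℤ × ℤ) (i : ZMod n) (x : ℝ × ℝ) : ℝ :=
  det (toR (v (i + 1)) - toR (v i)) (x - toR (v i))

end H230R2.Sail
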