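import Mathlib
import Pool.Agent.H230R2.Sail.Defs

namespace H230R2.Sail

variable {n : ℕ}

lemma det_add_right (p q r : ℝ × ℝ) : det p (q + r) = det p q + det p r := by
  simp only [det, Prod.fst_add, Prod.snd_add]; ring

lemma det_smul_right (p q : ℝ × ℝ) (t : ℝ) : det p (t • q) = t * det p q := by
  simp only [det, Prod.smul_fst, Prod.smul_snd, smul_eq_mul]; ring

/-- edge vector -/
def edge (v : ZMod n → ℤ × ℤ) (i : ZMod n) : ℝ × ℝ := toR (v (i + 1)) - toR (v i)

lemma side_eq (v : ZMod n → ℤ × ℤ) (i : ZMod n) (x : ℝ × ℝ) :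
    side v i x = det (edge v i) (x - toR (v i)) := rfl

lemma side_eq' (v : ZMod n → ℤ × ℤ) (i : ZMod n) (x : ℝ × ℝ) :
    side v i x = det (edge v i) (x - toR (v (i + 1))) := by
  simp only [side, det, edge, Prod.fst_sub, Prod.snd_sub]; ring

lemma side_pred (v : ZMod n → ℤ × ℤ) (i : ZMod n) (x : ℝ × ℝ) :
    side v (i - 1) x = det (edge v (i - 1)) (x - toR (v i)) := by
  rw [side_eq']; simp

lemma side_self (v : ZMod n → ℤ × ℤ) (i : ZMod n) : side v i (toR (v i)) = 0 := by
  simp [side, det]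

lemma side_succ (v : ZMod n → ℤ × ℤ) (i : ZMod n) : side v i (toR (v (i + 1))) = 0 := by
  simp only [side, det, Prod.fst_sub, Prod.snd_sub]; ring

/-- `side` is affine -/
lemma side_comb (v : ZMod n → ℤ × ℤ) (i : ZMod n) (x y : ℝ × ℝ) (s t : ℝ) (h : s + t = 1) :
    side v i (s • x + t • y) = s * side v i x + t * side v i y := by
  have hs : s = 1 - t := by linarith
  subst hs
  simp only [side, det, Prod.fst_sub, Prod.snd_sub, Prod.fst_add, Prod.snd_add, Prod.smul_fst,
    Prod.smul_snd, smul_eq_mul]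
  ring

lemma side_continuous (v : ZMod n → ℤ × ℤ) (i : ZMod n) : Continuous (side v i) := by
  unfold side det
  fun_prop

lemma side_pos {v : ZMod n → ℤ × ℤ} (hv : IsPolygon n v) {i j : ZMod n} (h1 : j ≠ i)
    (h2 : j ≠ i + 1) : 0 < side v i (toR (v j)) := hv.2 i j h1 h2

lemma side_nonneg {v : ZMod n → ℤ × ℤ} (hv : IsPolygon n v) (i j : ZMod n) :
    0 ≤ side v i (toR (v j)) := by
  by_cases h1 : j = i
  · subst h1; exact (side_self v _).ge
  by_cases h2 : j = i + 1
  · subst h2; exact (side_succ v _).ge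
  exact (side_pos hv h1 h2).le

lemma one_ne {hn : 3 ≤ n} : (1 : ZMod n) ≠ 0 := by
  haveI : Fact (1 < n) := ⟨by omega⟩
  exact one_ne_zero

lemma two_ne (hn : 3 ≤ n) : (2 : ZMod n) ≠ 0 := by
  intro h
  have : ((2 : ℕ) : ZMod n) = 0 := by exact_mod_cast h
  rw [ZMod.natCast_eq_zero_iff] at this
  have := Nat.le_of_dvd (by norm_num) this
  omega

/-- positive angle at each vertex -/
lemma det_edge_pos {v : ZMod n → ℤ × ℤ} (hv : IsPolygon n v) (k : ZMod n) :
    0 < det (edge v (k - 1)) (edge v k) := by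
  have hn := hv.1
  have h := side_pos hv (i := k - 1) (j := k + 1) (by
    intro h
    apply two_ne hn
    have : (k + 1) - (k - 1) = 0 := by rw [h]; ring
    rw [← this]; ring) (by
    intro h
    apply one_ne (hn := hn)
    have : (k + 1) - (k - 1 + 1) = 0 := by rw [h]; ring
    rw [← this]; ring)
  rw [side_eq'] at h
  simpa [edge] using h

/-- the key identity at a vertex -/
lemma vertex_identity (v : ZMod n → ℤ × ℤ) (k : ZMod n) (a x : ℝ × ℝ) :
    det (edge v (k - 1)) (edge v k) * (dot a x - dot a (toR (v k))) =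
      side v (k - 1) x * dot a (edge v k) - side v k x * dot a (edge v (k - 1)) := by
  rw [side_pred, side_eq]
  simp only [det, dot, Prod.fst_sub, Prod.snd_sub]
  ring

lemma poly_subset_side {v : ZMod n → ℤ × ℤ} (hv : IsPolygon n v) {x : ℝ × ℝ} (hx : x ∈ poly v)
    (i : ZMod n) : 0 ≤ side v i x := by
  have hconv : Convex ℝ {y : ℝ × ℝ | 0 ≤ side v i y} := by
    intro y hy z hz s t hs ht hst
    simp only [Set.mem_setOf_eq] at *
    rw [side_comb _ _ _ _ _ _ hst]
    positivity
  have := convexHull_min (s := Set.range fun i => toR (v i)) (t := {y : ℝ × ℝ | 0 ≤ side v i y})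
    (by rintro _ ⟨j, rfl⟩; exact side_nonneg hv i j) hconv
  exact this hx

lemma vertex_mem (v : ZMod n → ℤ × ℤ) (i : ZMod n) : toR (v i) ∈ poly v :=
  subset_convexHull ℝ _ ⟨i, rfl⟩

/-- a linear functional that is maximal at the vertex `k` -/
lemma exists_max_vertex {v : ZMod n → ℤ × ℤ} (hv : IsPolygon n v) (a : ℝ × ℝ) :
    ∃ k : ZMod n, (∀ j, dot a (toR (v j)) ≤ dot a (toR (v k))) ∧ dot a (edge v k) ≤ 0 ∧
      0 ≤ dot a (edge v (k - 1)) := by
  haveI : NeZero n := ⟨by have := hv.1; omega⟩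
  obtain ⟨k, hk⟩ := Finite.exists_max (fun j : ZMod n => dot a (toR (v j)))
  refine ⟨k, hk, ?_, ?_⟩
  · have := hk (k + 1)
    simp only [dot, edge, Prod.fst_sub, Prod.snd_sub] at *
    linarith
  · have := hk (k - 1)
    simp only [dot, edge, Prod.fst_sub, Prod.snd_sub, sub_add_cancel] at *
    linarith

/-- The half plane description of the polygon. -/
lemma mem_poly_iff {v : ZMod n → ℤ × ℤ} (hv : IsPolygon n v) (x : ℝ × ℝ) :
    x ∈ poly v ↔ ∀ i, 0 ≤ side v i x := by
  constructor
  · intro hx i; exact poly_subset_side hv hx i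
  · intro hx
    by_contra hnot
    haveI : NeZero n := ⟨by have := hv.1; omega⟩
    have hcomp : IsCompact (poly v) := (Set.finite_range _).isCompact_convexHull ℝ
    obtain ⟨f, u, hf1, hf2⟩ := geometric_hahn_banach_closed_point (convex_convexHull ℝ _)
      hcomp.isClosed hnot
    set a : ℝ × ℝ := (f (1, 0), f (0, 1)) with ha
    have hfa : ∀ y : ℝ × ℝ, f y = dot a y := by
      intro y
      have : y = y.1 • ((1 : ℝ), (0 : ℝ)) + y.2 • ((0 : ℝ), (1 : ℝ)) := by
        ext <;> simp
      conv_lhs => rw [this]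
      rw [map_add, map_smul, map_smul]
      simp only [dot, ha, smul_eq_mul]
      ring
    obtain ⟨k, -, h1, h2⟩ := exists_max_vertex hv a
    have hid := vertex_identity v k a x
    have hD := det_edge_pos hv k
    have h3 := hf1 _ (vertex_mem v k)
    rw [hfa] at h3 hf2
    have h4 : 0 < dot a x - dot a (toR (v k)) := by linarith
    have h5 := mul_pos hD h4
    rw [hid] at h5
    nlinarith [hx (k - 1), hx k, mul_nonneg (hx (k - 1)) (neg_nonneg.mpr h1),
      mul_nonneg (hx k) h2]

end H230R2.Sail
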