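import Mathlib
import Pool.Agent.H230R2.Sail.Basic

namespace H230R2.Sail

variable {n : ℕ}

/-- A half plane containing the polygon cuts off at most one of the points `w i`. -/
lemma obs {v : ZMod n → ℤ × ℤ} (hv : IsPolygon n v) (w : ZMod n → ℝ × ℝ) (α : ZMod n → ℝ)
    (h1 : ∀ i, side v i (w i) = -α i) (h2 : ∀ i j, j ≠ i → 0 ≤ side v j (w i))
    (h3 : ∀ i, α (i - 1) ≤ side v (i - 1) (w i)) (h4 : ∀ i, α (i + 1) ≤ side v (i + 1) (w i))
    (a : ℝ × ℝ) (c : ℝ) (hc : ∀ j, dot a (toR (v j)) ≤ c) (i i' : ZMod n)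
    (hi : c < dot a (w i)) (hi' : c < dot a (w i')) : i = i' := by
  obtain ⟨k, -, hp, hq⟩ := exists_max_vertex hv a
  have hD := det_edge_pos hv k
  have key : ∀ l, c < dot a (w l) → l = k - 1 ∨ l = k := by
    intro l hl
    by_contra hcon
    push Not at hcon
    have e1 := h2 l (k - 1) (Ne.symm hcon.1)
    have e2 := h2 l k (Ne.symm hcon.2)
    have hid := vertex_identity v k a (w l)
    have h5 := mul_pos hD (show 0 < dot a (w l) - dot a (toR (v k)) by
      have := hc k; linarith)
    rw [hid] at h5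
    nlinarith [mul_nonneg e1 (neg_nonneg.mpr hp), mul_nonneg e2 hq]
  have key2 : c < dot a (w (k - 1)) → c < dot a (w k) → False := by
    intro ha hb
    have hid1 := vertex_identity v k a (w (k - 1))
    have hid2 := vertex_identity v k a (w k)
    have h5 := mul_pos hD (show 0 < dot a (w (k - 1)) - dot a (toR (v k)) by
      have := hc k; linarith)
    have h6 := mul_pos hD (show 0 < dot a (w k) - dot a (toR (v k)) by
      have := hc k; linarith)
    rw [hid1, h1] at h5
    rw [hid2, h1] at h6
    have g1 := h4 (k - 1)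
    rw [sub_add_cancel] at g1
    have g2 := h3 k
    nlinarith [mul_nonneg (sub_nonneg.mpr g1) hq, mul_nonneg (sub_nonneg.mpr g2)
      (neg_nonneg.mpr hp)]
  rcases key i hi with rfl | rfl <;> rcases key i' hi' with rfl | rfl
  · rfl
  · exact (key2 hi hi').elim
  · exact (key2 hi' hi).elim
  · rfl

/-- A point beyond the edge `i` and weakly inside the half planes of the two adjacent edges is
strictly inside the half planes of all the other edges. -/
lemma contig {v : ZMod n → ℤ × ℤ} (hv : IsPolygon n v) {z : ℝ × ℝ} {i : ZMod n}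
    (hi : side v i z < 0) (hm : 0 ≤ side v (i - 1) z) (hp : 0 ≤ side v (i + 1) z)
    {j : ZMod n} (h0 : j ≠ i) (h1 : j ≠ i - 1) (h2 : j ≠ i + 1) : 0 < side v j z := by
  have hx0 := side_pos hv (i := i) (j := j) h0 h2
  set x := toR (v j) with hx
  set t : ℝ := -side v i z / (side v i x - side v i z) with ht
  have hden : 0 < side v i x - side v i z := by linarith
  have ht0 : 0 < t := div_pos (by linarith) hden
  have ht1 : t < 1 := by rw [ht, div_lt_one hden]; linarith
  set y := (1 - t) • z + t • x with hy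
  have hcomb : ∀ l, side v l y = (1 - t) * side v l z + t * side v l x := by
    intro l; exact side_comb v l z x (1 - t) t (by ring)
  have hy0 : side v i y = 0 := by
    rw [hcomb, ht]; field_simp; ring
  have hy1 : 0 ≤ side v (i - 1) y := by
    rw [hcomb]
    have := side_nonneg hv (i - 1) j
    have h3 : 0 ≤ 1 - t := by linarith
    positivity
  have hy2 : 0 ≤ side v (i + 1) y := by
    rw [hcomb]
    have := side_nonneg hv (i + 1) j
    have h3 : 0 ≤ 1 - t := by linarith
    positivity
  have hD := det_edge_pos hv i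
  set lam : ℝ := side v (i - 1) y / det (edge v (i - 1)) (edge v i) with hlam
  have hlam0 : 0 ≤ lam := div_nonneg hy1 hD.le
  have hyeq : y = (1 - lam) • toR (v i) + lam • toR (v (i + 1)) := by
    have e1 := vertex_identity v i (1, 0) y
    have e2 := vertex_identity v i (0, 1) y
    rw [hy0] at e1 e2
    have f1 : y.1 - (toR (v i)).1 = lam * (edge v i).1 := by
      rw [hlam]; field_simp
      simp only [dot] at e1; linarith
    have f2 : y.2 - (toR (v i)).2 = lam * (edge v i).2 := by
      rw [hlam]; field_simp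
      simp only [dot] at e2; linarith
    simp only [edge, Prod.fst_sub, Prod.snd_sub] at f1 f2
    ext
    · simp only [Prod.fst_add, Prod.smul_fst, smul_eq_mul]; linarith
    · simp only [Prod.snd_add, Prod.smul_snd, smul_eq_mul]; linarith
  have hlam1 : lam ≤ 1 := by
    by_contra hcon
    push Not at hcon
    have e3 : side v (i + 1) y = (1 - lam) * side v (i + 1) (toR (v i)) +
        lam * side v (i + 1) (toR (v (i + 1))) := by
      rw [hyeq]; exact side_comb _ _ _ _ _ _ (by ring)
    rw [side_self] at e3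
    have hn := hv.1
    have e4 := side_pos hv (i := i + 1) (j := i) (by
      intro h
      apply one_ne (hn := hn)
      have : (1 : ZMod n) = (i + 1) - i := by ring
      rw [this, ← h]; ring) (by
      intro h
      apply two_ne hn
      have : (2 : ZMod n) = (i + 1 + 1) - i := by ring
      rw [this, ← h]; ring)
    nlinarith
  have e5 : side v j y = (1 - lam) * side v j (toR (v i)) + lam * side v j (toR (v (i + 1))) := by
    rw [hyeq]; exact side_comb _ _ _ _ _ _ (by ring)
  have e6 := side_pos hv (i := j) (j := i) (Ne.symm h0) (by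
    intro h; apply h1; rw [h]; ring)
  have e7 := side_pos hv (i := j) (j := i + 1) (Ne.symm h2) (by
    intro h; apply h0; exact (add_right_cancel h).symm)
  have e8 : 0 < side v j y := by
    rw [e5]
    rcases eq_or_lt_of_le hlam0 with h | h
    · rw [← h]; simpa using e6
    · have h3 : 0 ≤ 1 - lam := by linarith
      have := mul_pos h e7
      have := mul_nonneg h3 e6.le
      linarith
  rw [hcomb, hx, side_self] at e8
  have : 0 < (1 - t) * side v j z := by linarith
  exact (pos_iff_pos_of_mul_pos this).mp (by linarith)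

/-- The integer point `z` lies strictly over the edge from `v i` to `v (i+1)`: it is strictly
beyond the line of this edge, and strictly inside the half planes of the two adjacent edges. -/
def Over (v : ZMod n → ℤ × ℤ) (i : ZMod n) (z : ℤ × ℤ) : Prop :=
  side v i (toR z) < 0 ∧ 0 < side v (i - 1) (toR z) ∧ 0 < side v (i + 1) (toR z)

/-- the integer length of an edge -/
def len (v : ZMod n → ℤ × ℤ) (i : ZMod n) : ℕ :=
  Int.gcd ((v (i + 1)).1 - (v i).1) ((v (i + 1)).2 - (v i).2)

lemma len_data {v : ZMod n → ℤ × ℤ} (hv : IsPolygon n v) (i : ZMod n) :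
    0 < len v i ∧ ∃ u1 u2 f1 f2 : ℤ, (v (i + 1)).1 - (v i).1 = len v i * u1 ∧
      (v (i + 1)).2 - (v i).2 = len v i * u2 ∧ u1 * f2 - u2 * f1 = -1 := by
  have hpos : 0 < len v i := by
    rw [len, Int.gcd_pos_iff]
    by_contra hcon
    push Not at hcon
    have hD := det_edge_pos hv i
    have e1 : (edge v i).1 = 0 := by
      simp only [edge, toR, Prod.fst_sub]; exact_mod_cast hcon.1
    have e2 : (edge v i).2 = 0 := by
      simp only [edge, toR, Prod.snd_sub]; exact_mod_cast hcon.2
    simp [det, e1, e2] at hD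
  refine ⟨hpos, ?_⟩
  obtain ⟨u1, hu1⟩ := Int.gcd_dvd_left ((v (i + 1)).1 - (v i).1) ((v (i + 1)).2 - (v i).2)
  obtain ⟨u2, hu2⟩ := Int.gcd_dvd_right ((v (i + 1)).1 - (v i).1) ((v (i + 1)).2 - (v i).2)
  have hb := Int.gcd_eq_gcd_ab ((v (i + 1)).1 - (v i).1) ((v (i + 1)).2 - (v i).2)
  set r := Int.gcdA ((v (i + 1)).1 - (v i).1) ((v (i + 1)).2 - (v i).2)
  set s := Int.gcdB ((v (i + 1)).1 - (v i).1) ((v (i + 1)).2 - (v i).2)
  refine ⟨u1, u2, s, -r, hu1, hu2, ?_⟩
  have hg : (len v i : ℤ) ≠ 0 := by exact_mod_cast hpos.ne'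
  have : (len v i : ℤ) * (u1 * r + u2 * s) = len v i * 1 := by
    have e : (len v i : ℤ) = ((v (i + 1)).1 - (v i).1) * r + ((v (i + 1)).2 - (v i).2) * s := hb
    rw [mul_one]
    conv_rhs => rw [e]
    have hu1' : (v (i + 1)).1 - (v i).1 = len v i * u1 := hu1
    have hu2' : (v (i + 1)).2 - (v i).2 = len v i * u2 := hu2
    rw [hu1', hu2']; ring
  have := mul_left_cancel₀ hg this
  linarith

lemma side_int {v : ZMod n → ℤ × ℤ} (hv : IsPolygon n v) (i : ZMod n) (z : ℤ × ℤ) :
    ∃ t : ℤ, side v i (toR z) = len v i * t := by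
  obtain ⟨-, u1, u2, -, -, h1, h2, -⟩ := len_data hv i
  refine ⟨u1 * (z.2 - (v i).2) - u2 * (z.1 - (v i).1), ?_⟩
  have h1' : ((v (i + 1)).1 : ℝ) - (v i).1 = len v i * u1 := by exact_mod_cast h1
  have h2' : ((v (i + 1)).2 : ℝ) - (v i).2 = len v i * u2 := by exact_mod_cast h2
  simp only [side, det, toR, Prod.fst_sub, Prod.snd_sub]
  rw [h1', h2']
  push_cast
  ring

lemma len_le_of_pos {v : ZMod n → ℤ × ℤ} (hv : IsPolygon n v) {i : ZMod n} {z : ℤ × ℤ}
    (h : 0 < side v i (toR z)) : (len v i : ℝ) ≤ side v i (toR z) := by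
  obtain ⟨t, ht⟩ := side_int hv i z
  have hpos : (0 : ℝ) < len v i := by exact_mod_cast (len_data hv i).1
  rw [ht] at h ⊢
  have h1 : (0 : ℝ) < t := (pos_iff_pos_of_mul_pos h).mp hpos
  have h2 : (1 : ℤ) ≤ t := by exact_mod_cast h1
  have h3 : (1 : ℝ) ≤ t := by exact_mod_cast h2
  nlinarith

/-- If an integer point lies strictly over an edge, then so does one at integer distance one. -/
lemma over_height_one {v : ZMod n → ℤ × ℤ} (hv : IsPolygon n v) {i : ZMod n} {z : ℤ × ℤ}
    (h : Over v i z) : ∃ z', Over v i z' ∧ side v i (toR z') = -(len v i : ℝ) := by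
  obtain ⟨hpos, u1, u2, f1, f2, h1, h2, hf⟩ := len_data hv i
  obtain ⟨ho1, ho2, ho3⟩ := h
  have hg : (0 : ℝ) < len v i := by exact_mod_cast hpos
  have hg1 : (1 : ℝ) ≤ len v i := by exact_mod_cast hpos
  have h1' : ((v (i + 1)).1 : ℝ) - (v i).1 = len v i * u1 := by exact_mod_cast h1
  have h2' : ((v (i + 1)).2 : ℝ) - (v i).2 = len v i * u2 := by exact_mod_cast h2
  have hf' : (u1 : ℝ) * f2 - u2 * f1 = -1 := by exact_mod_cast hf
  set x1 : ℤ := z.1 - (v i).1 with hx1
  set x2 : ℤ := z.2 - (v i).2 with hx2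
  set d : ℤ := u2 * x1 - u1 * x2 with hd
  set s : ℤ := x2 * f1 - x1 * f2 with hs
  have hside : side v i (toR z) = -(len v i : ℝ) * d := by
    simp only [side, det, toR, Prod.fst_sub, Prod.snd_sub]
    rw [h1', h2', hd, hx1, hx2]
    push_cast
    ring
  have hdpos : 0 < d := by
    rw [hside] at ho1
    have : (0 : ℝ) < d := by
      by_contra hcon
      push Not at hcon
      nlinarith
    exact_mod_cast this
  have hdR : (0 : ℝ) < d := by exact_mod_cast hdpos
  set j : ℤ := -((-s) / d) with hj
  set μ : ℤ := (-s) % d with hμ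
  have hμ0 : 0 ≤ μ := Int.emod_nonneg _ hdpos.ne'
  have hμ1 : μ < d := Int.emod_lt_of_pos _ hdpos
  have hdj : d * j = s + μ := by
    have := Int.mul_ediv_add_emod (-s) d
    rw [hj, hμ]; linarith
  have hμ1' : (μ : ℝ) ≤ d - 1 := by
    have : μ ≤ d - 1 := by omega
    exact_mod_cast this
  have hμ0' : (0 : ℝ) ≤ μ := by exact_mod_cast hμ0
  have hdj' : (d : ℝ) * j = s + μ := by exact_mod_cast hdj
  set z' : ℤ × ℤ := ((v i).1 + j * u1 + f1, (v i).2 + j * u2 + f2) with hz'
  have hs' : side v i (toR z') = -(len v i : ℝ) := by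
    simp only [side, det, toR, Prod.fst_sub, Prod.snd_sub, hz']
    rw [h1', h2']
    push_cast
    linear_combination (len v i : ℝ) * hf'
  have hX1 : (x1 : ℝ) = s * u1 + d * f1 := by
    have : x1 = s * u1 + d * f1 := by
      rw [hs, hd]; linear_combination x1 * hf
    exact_mod_cast this
  have hX2 : (x2 : ℝ) = s * u2 + d * f2 := by
    have : x2 = s * u2 + d * f2 := by
      rw [hs, hd]; linear_combination x2 * hf
    exact_mod_cast this
  have hX1' : (z.1 : ℝ) = (v i).1 + (s * u1 + d * f1) := by
    rw [← hX1, hx1]; push_cast; ring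
  have hX2' : (z.2 : ℝ) = (v i).2 + (s * u2 + d * f2) := by
    rw [← hX2, hx2]; push_cast; ring
  have hV1 : ((v (i + 1)).1 : ℝ) = (v i).1 + len v i * u1 := by linarith
  have hV2 : ((v (i + 1)).2 : ℝ) = (v i).2 + len v i * u2 := by linarith
  have main : ∀ k : ZMod n, 0 < side v k (toR z) → 0 < side v k (toR z') := by
    intro k hk
    have hA := side_nonneg hv k i
    have hB := side_nonneg hv k (i + 1)
    have hid : (len v i : ℝ) * d * side v k (toR z') =
        len v i * (d - 1 - μ) * side v k (toR (v i)) +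
        μ * ((len v i - 1) * side v k (toR (v i)) + side v k (toR (v (i + 1)))) +
        len v i * side v k (toR z) := by
      simp only [side, det, toR, Prod.fst_sub, Prod.snd_sub, hz']
      rw [hX1', hX2', hV1, hV2]
      push_cast
      set E1 : ℝ := ((v (k + 1)).1 : ℝ) - (v k).1
      set E2 : ℝ := ((v (k + 1)).2 : ℝ) - (v k).2
      linear_combination (len v i : ℝ) * (E1 * u2 - E2 * u1) * hdj'
    have : 0 < (len v i : ℝ) * d * side v k (toR z') := by
      rw [hid]
      have t1 : 0 ≤ (len v i : ℝ) * (d - 1 - μ) * side v k (toR (v i)) := by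
        apply mul_nonneg (mul_nonneg hg.le (by linarith)) hA
      have t2 : 0 ≤ (μ : ℝ) * ((len v i - 1) * side v k (toR (v i)) +
          side v k (toR (v (i + 1)))) := by
        apply mul_nonneg hμ0'
        have := mul_nonneg (sub_nonneg.mpr hg1) hA
        linarith
      have t3 := mul_pos hg hk
      linarith
    exact (pos_iff_pos_of_mul_pos this).mp (mul_pos hg hdR)
  exact ⟨z', ⟨by rw [hs']; linarith, main _ ho2, main _ ho3⟩, hs'⟩

/-- The obstruction: if over every edge there is an integer point, then an intersection of fewer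
than `n` half planes which contains the polygon contains an integer point outside it. -/
theorem obstruction {v : ZMod n → ℤ × ℤ} (hv : IsPolygon n v) (ho : ∀ i, ∃ z, Over v i z)
    {k : ℕ} (hk : k < n) (a : Fin k → ℝ × ℝ) (c : Fin k → ℝ)
    (hP : ∀ j i, dot (a j) (toR (v i)) ≤ c j)
    (hQ : ∀ z : ℤ × ℤ, (∀ j, dot (a j) (toR z) ≤ c j) → toR z ∈ poly v) : False := by
  have hn := hv.1
  have : NeZero n := ⟨by omega⟩
  have h1 : ∀ i, ∃ z', Over v i z' ∧ side v i (toR z') = -(len v i : ℝ) := by
    intro i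
    obtain ⟨z, hz⟩ := ho i
    exact over_height_one hv hz
  choose w hw1 hw2 using h1
  have h2 : ∀ i, ∃ j, c j < dot (a j) (toR (w i)) := by
    intro i
    by_contra hcon
    push Not at hcon
    have := poly_subset_side hv (hQ (w i) hcon) i
    linarith [(hw1 i).1]
  choose g hg using h2
  have hinj : Function.Injective g := by
    intro i i' hii
    apply obs hv (fun i => toR (w i)) (fun i => (len v i : ℝ)) hw2 _ _ _ (a (g i)) (c (g i))
      (hP (g i)) i i' (hg i) (by rw [hii]; exact hg i')
    · intro i j hji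
      by_cases e1 : j = i - 1
      · rw [e1]; exact (hw1 i).2.1.le
      by_cases e2 : j = i + 1
      · rw [e2]; exact (hw1 i).2.2.le
      exact (contig hv (hw1 i).1 (hw1 i).2.1.le (hw1 i).2.2.le hji e1 e2).le
    · intro i; exact len_le_of_pos hv (hw1 i).2.1
    · intro i; exact len_le_of_pos hv (hw1 i).2.2
  have := Fintype.card_le_of_injective g hinj
  rw [ZMod.card, Fintype.card_fin] at this
  omega

end H230R2.Sail
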