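import Mathlib
import Pool.Agent.H230R2.Sail.Obstruct

namespace H230R2.Sail

variable {n : ℕ}

/-- the sets `Q` which fit around `P` -/
def Fits (P Q : Set (ℝ × ℝ)) : Prop :=
  Bornology.IsBounded Q ∧ (∃ U, IsOpen U ∧ P ⊆ U ∧ U ⊆ Q) ∧
    ∀ z : ℤ × ℤ, toR z ∈ Q → toR z ∈ P

lemma exists_pos_le {ι : Type*} [Finite ι] (f : ι → ℝ) (hf : ∀ i, 0 < f i) :
    ∃ δ > 0, ∀ i, δ ≤ f i := by
  rcases isEmpty_or_nonempty ι with h | h
  · exact ⟨1, one_pos, fun i => (h.false i).elim⟩
  · obtain ⟨i, hi⟩ := Finite.exists_min f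
    exact ⟨f i, hf i, hi⟩

lemma side_zero (v : ZMod n → ℤ × ℤ) (i : ZMod n) (x : ℝ × ℝ) :
    side v i x = side v i 0 + det (edge v i) x := by
  simp only [side, det, edge, Prod.fst_sub, Prod.snd_sub, Prod.fst_zero, Prod.snd_zero]
  ring

/-- Intersecting with one more half plane. -/
lemma IsMeet.inter {k : ℕ} {Q : Set (ℝ × ℝ)} (h : IsMeet k Q) (a : ℝ × ℝ) (c : ℝ) :
    IsMeet (k + 1) (Q ∩ {x | dot a x ≤ c}) := by
  obtain ⟨b, d, rfl⟩ := h
  refine ⟨Fin.cons a b, Fin.cons c d, ?_⟩
  ext x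
  simp only [Set.mem_inter_iff, Set.mem_setOf_eq, Fin.forall_fin_succ, Fin.cons_zero,
    Fin.cons_succ]
  exact and_comm

/-- the half plane `-δ ≤ side v l` in the form `dot a x ≤ c` -/
lemma side_halfplane (v : ZMod n → ℤ × ℤ) (l : ZMod n) (δ : ℝ) :
    {x : ℝ × ℝ | -δ ≤ side v l x} =
      {x | dot ((edge v l).2, -(edge v l).1) x ≤ δ + side v l 0} := by
  ext x
  simp only [Set.mem_setOf_eq]
  rw [side_zero]
  simp only [dot, det]
  constructor <;> intro h <;> linarith

/-- Points just outside the edges. -/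
lemma exists_outer {v : ZMod n → ℤ × ℤ} (hv : IsPolygon n v) :
    ∃ (δ : ℝ) (w : ZMod n → ℝ × ℝ), 0 < δ ∧ (∀ i, side v i (w i) = -(2 * δ)) ∧
      ∀ i j, j ≠ i → 2 * δ ≤ side v j (w i) := by
  have hn := hv.1
  have : NeZero n := ⟨by omega⟩
  set M : ZMod n → ℝ × ℝ := fun i => (1 / 2 : ℝ) • toR (v i) + (1 / 2 : ℝ) • toR (v (i + 1))
    with hM
  set d : ZMod n → ℝ × ℝ := fun i =>
    ((edge v i).2 / ((edge v i).1 ^ 2 + (edge v i).2 ^ 2),
      -(edge v i).1 / ((edge v i).1 ^ 2 + (edge v i).2 ^ 2)) with hd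
  have hside : ∀ i j, side v j (M i) =
      1 / 2 * side v j (toR (v i)) + 1 / 2 * side v j (toR (v (i + 1))) := by
    intro i j
    exact side_comb _ _ _ _ _ _ (by norm_num)
  have hMpos : ∀ i j, j ≠ i → 0 < side v j (M i) := by
    intro i j hji
    rw [hside]
    have h1 := side_nonneg hv j i
    have h2 := side_nonneg hv j (i + 1)
    by_cases h3 : i = j + 1
    · have h4 := side_pos hv (i := j) (j := i + 1) (by
        intro h
        apply two_ne hn
        have : (2 : ZMod n) = (j + 1 + 1) - j := by ring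
        rw [this, ← h3, h]; ring) (by
        intro h
        exact hji (add_right_cancel h).symm)
      linarith
    · have h4 := side_pos hv (i := j) (j := i) (Ne.symm hji) h3
      linarith
  have hd1 : ∀ i, det (edge v i) (d i) = -1 := by
    intro i
    have hne : (edge v i).1 ^ 2 + (edge v i).2 ^ 2 ≠ 0 := by
      intro h
      have h1 : (edge v i).1 = 0 := by nlinarith [sq_nonneg (edge v i).1, sq_nonneg (edge v i).2]
      have h2 : (edge v i).2 = 0 := by nlinarith [sq_nonneg (edge v i).1, sq_nonneg (edge v i).2]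
      have hD := det_edge_pos hv i
      simp [det, h1, h2] at hD
    simp only [det, hd]
    field_simp
    ring
  obtain ⟨δ, hδ0, hδ⟩ := exists_pos_le
    (fun p : {p : ZMod n × ZMod n // p.2 ≠ p.1} =>
      side v p.1.2 (M p.1.1) / (2 * (1 + |det (edge v p.1.2) (d p.1.1)|)))
    (fun p => div_pos (hMpos _ _ p.2) (by positivity))
  refine ⟨δ, fun i => M i + (2 * δ) • d i, hδ0, ?_, ?_⟩
  · intro i
    have e1 : side v i (M i + (2 * δ) • d i) = side v i (M i) + 2 * δ * det (edge v i) (d i) := by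
      rw [side_zero, side_zero v i (M i), det_add_right, det_smul_right]; ring
    rw [e1, hd1, hside, side_self, side_succ]; ring
  · intro i j hji
    have e1 : side v j (M i + (2 * δ) • d i) = side v j (M i) + 2 * δ * det (edge v j) (d i) := by
      rw [side_zero, side_zero v j (M i), det_add_right, det_smul_right]; ring
    rw [e1]
    have h1 := hδ ⟨(i, j), hji⟩
    simp only at h1
    rw [le_div_iff₀ (by positivity)] at h1
    have h2 := neg_abs_le (det (edge v j) (d i))
    have h3 := mul_le_mul_of_nonneg_left h2 (by linarith : 0 ≤ 2 * δ)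
    linarith

/-- If a set fits around the polygon and is an intersection of `K ≤ n` half planes, then there
is a convex polygon with exactly `K` sides which fits around it. -/
theorem exact_sides {v : ZMod n → ℤ × ℤ} (hv : IsPolygon n v) {K : ℕ} (hK : K ≤ n)
    {Q : Set (ℝ × ℝ)} (hQ : Fits (poly v) Q) (hm : IsMeet K Q) :
    ∃ Q', Fits (poly v) Q' ∧ IsGon K Q' := by
  classical
  have hn := hv.1
  have : NeZero n := ⟨by omega⟩
  obtain ⟨δ, w, hδ, hw1, hw2⟩ := exists_outer hv
  set C : ℕ → Set (ℝ × ℝ) := fun j => Q ∩ {x | ∀ t < j, -δ ≤ side v (t : ZMod n) x} with hC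
  have hC0 : C 0 = Q := by simp [hC]
  have hCs : ∀ j, C (j + 1) = C j ∩ {x | -δ ≤ side v (j : ZMod n) x} := by
    intro j
    ext x
    simp only [hC, Set.mem_inter_iff, Set.mem_setOf_eq]
    constructor
    · rintro ⟨h1, h2⟩
      exact ⟨⟨h1, fun t ht => h2 t (by omega)⟩, h2 j (by omega)⟩
    · rintro ⟨⟨h1, h2⟩, h3⟩
      refine ⟨h1, fun t ht => ?_⟩
      rcases Nat.lt_succ_iff_lt_or_eq.mp ht with h | h
      · exact h2 t h
      · rw [h]; exact h3
  have hmeet : ∀ j k, IsMeet k (C j) → IsMeet (k + 1) (C (j + 1)) := by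
    intro j k h
    rw [hCs, side_halfplane]
    exact h.inter _ _
  have hex : ∀ j, ∃ k, IsMeet k (C j) := by
    intro j
    induction j with
    | zero => exact ⟨K, by rw [hC0]; exact hm⟩
    | succ j ih =>
      obtain ⟨k, hk⟩ := ih
      exact ⟨k + 1, hmeet j k hk⟩
  set s : ℕ → ℕ := fun j => Nat.find (hex j) with hs
  have hs1 : ∀ j, IsMeet (s j) (C j) := fun j => Nat.find_spec (hex j)
  have hs2 : ∀ j k, k < s j → ¬ IsMeet k (C j) := fun j k h => Nat.find_min (hex j) h
  have hs0 : s 0 ≤ K := Nat.find_min' (hex 0) (by rw [hC0]; exact hm)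
  have hstep : ∀ j, s (j + 1) ≤ s j + 1 := fun j => Nat.find_min' (hex (j + 1)) (hmeet j _ (hs1 j))
  obtain ⟨hb, ⟨U, hU1, hU2, hU3⟩, hZ⟩ := hQ
  have hfits : ∀ j, Fits (poly v) (C j) := by
    intro j
    refine ⟨hb.subset Set.inter_subset_left,
      ⟨U ∩ {x | ∀ t ∈ Finset.range j, -δ < side v (t : ZMod n) x}, ?_, ?_, ?_⟩, ?_⟩
    · apply hU1.inter
      have : {x : ℝ × ℝ | ∀ t ∈ Finset.range j, -δ < side v (t : ZMod n) x} =
          ⋂ t ∈ Finset.range j, {x | -δ < side v (t : ZMod n) x} := by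
        ext x; simp
      rw [this]
      exact isOpen_biInter_finset fun t _ => isOpen_lt continuous_const (side_continuous v _)
    · intro x hx
      refine ⟨hU2 hx, fun t _ => ?_⟩
      have := poly_subset_side hv hx (t : ZMod n)
      linarith
    · rintro x ⟨h1, h2⟩
      exact ⟨hU3 h1, fun t ht => (h2 t (Finset.mem_range.mpr ht)).le⟩
    · rintro z ⟨h1, -⟩
      exact hZ z h1
  -- the last set has at least `n` sides
  have hlast : n ≤ s n := by
    obtain ⟨a, c, hac⟩ := hs1 n
    have hP : ∀ j i, dot (a j) (toR (v i)) ≤ c j := by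
      intro j i
      obtain ⟨-, ⟨U', -, h2, h3⟩, -⟩ := hfits n
      have : toR (v i) ∈ C n := h3 (h2 (vertex_mem v i))
      rw [hac] at this
      exact this j
    have h2 : ∀ i, ∃ j, c j < dot (a j) (w i) := by
      intro i
      by_contra hcon
      push Not at hcon
      have h3 : w i ∈ C n := by rw [hac]; exact hcon
      have h4 := h3.2 i.val (ZMod.val_lt i)
      rw [ZMod.natCast_zmod_val, hw1] at h4
      linarith
    choose g hg using h2
    have hinj : Function.Injective g := by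
      intro i i' hii
      apply obs hv w (fun _ => 2 * δ) hw1 _ _ _ (a (g i)) (c (g i))
        (hP (g i)) i i' (hg i) (by rw [hii]; exact hg i')
      · intro i j hji
        have := hw2 i j hji
        linarith
      · intro i
        apply hw2
        intro h; apply one_ne (hn := hn)
        have : (1 : ZMod n) = i - (i - 1) := by ring
        rw [this, h]; ring
      · intro i
        apply hw2
        intro h; apply one_ne (hn := hn)
        have : (1 : ZMod n) = (i + 1) - i := by ring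
        rw [this, h]; ring
    have := Fintype.card_le_of_injective g hinj
    rwa [ZMod.card, Fintype.card_fin] at this
  -- discrete intermediate value
  have hfind : ∃ j, K ≤ s j := ⟨n, hK.trans hlast⟩
  set j := Nat.find hfind with hj
  have hj1 : K ≤ s j := Nat.find_spec hfind
  have hj2 : s j ≤ K := by
    rcases Nat.eq_zero_or_pos j with h | h
    · rw [h]; exact hs0
    · obtain ⟨t, ht⟩ : ∃ t, j = t + 1 := ⟨j - 1, by omega⟩
      have h1 : ¬ K ≤ s t := Nat.find_min hfind (by omega)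
      have h2 := hstep t
      rw [ht]; omega
  have hj3 : s j = K := le_antisymm hj2 hj1
  refine ⟨C j, hfits j, (hfits j).1, ?_, by rw [← hj3]; exact hs1 j, ?_⟩
  · obtain ⟨-, ⟨U', h1, h2, h3⟩, -⟩ := hfits j
    exact ⟨toR (v 0), mem_interior.mpr ⟨U', h3, h1, h2 (vertex_mem v 0)⟩⟩
  · intro k' hk'
    exact hs2 j k' (by rw [hj3]; exact hk')

/-- From `Fits` to the condition of the problem. -/
lemma Fits.spec {v : ZMod n → ℤ × ℤ} {Q : Set (ℝ × ℝ)} (h : Fits (poly v) Q) :
    poly v ⊆ interior Q ∧ convexHull ℝ (Q ∩ lattice) = poly v := by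
  obtain ⟨-, ⟨U, h1, h2, h3⟩, h4⟩ := h
  refine ⟨fun x hx => mem_interior.mpr ⟨U, h3, h1, h2 hx⟩, ?_⟩
  apply Set.Subset.antisymm
  · apply convexHull_min _ (convex_convexHull ℝ _)
    rintro x ⟨hx, z, rfl⟩
    exact h4 z hx
  · apply convexHull_mono
    rintro x ⟨i, rfl⟩
    exact ⟨h3 (h2 (vertex_mem v i)), v i, rfl⟩

end H230R2.Sail
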