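import Mathlib
import Pool.Agent.H230R2.Sail.Exact

namespace H230R2.Sail

variable {n : ℕ}

lemma sum_side [NeZero n] (v : ZMod n → ℤ × ℤ) (x : ℝ × ℝ) :
    ∑ l, side v l x = ∑ l, side v l 0 := by
  have h1 : ∑ l : ZMod n, toR (v (l + 1)) = ∑ l : ZMod n, toR (v l) :=
    Equiv.sum_comp (Equiv.addRight (1 : ZMod n)) (fun l => toR (v l))
  have h2 : ∑ l : ZMod n, edge v l = 0 := by
    simp only [edge, Finset.sum_sub_distrib, h1, sub_self]
  have h3 : ∑ l : ZMod n, det (edge v l) x = 0 := by
    have : ∑ l : ZMod n, det (edge v l) x = det (∑ l : ZMod n, edge v l) x := by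
      simp only [det, Prod.fst_sum, Prod.snd_sum, Finset.sum_mul, Finset.sum_sub_distrib]
    rw [this, h2]; simp [det]
  calc ∑ l, side v l x = ∑ l, (side v l 0 + det (edge v l) x) :=
        Finset.sum_congr rfl fun l _ => side_zero v l x
    _ = _ := by rw [Finset.sum_add_distrib, h3, add_zero]

lemma side_round (v : ZMod n → ℤ × ℤ) (l : ZMod n) (x : ℝ × ℝ) :
    |side v l (toR (⌊x.1⌋, ⌊x.2⌋)) - side v l x| ≤ |(edge v l).1| + |(edge v l).2| := by
  have h1 : |(⌊x.1⌋ : ℝ) - x.1| ≤ 1 := by
    rw [abs_le]; constructor <;> linarith [Int.floor_le x.1, Int.lt_floor_add_one x.1]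
  have h2 : |(⌊x.2⌋ : ℝ) - x.2| ≤ 1 := by
    rw [abs_le]; constructor <;> linarith [Int.floor_le x.2, Int.lt_floor_add_one x.2]
  have e : side v l (toR (⌊x.1⌋, ⌊x.2⌋)) - side v l x =
      (edge v l).1 * ((⌊x.2⌋ : ℝ) - x.2) - (edge v l).2 * ((⌊x.1⌋ : ℝ) - x.1) := by
    simp only [side, det, edge, toR, Prod.fst_sub, Prod.snd_sub]; ring
  rw [e]
  calc _ ≤ |(edge v l).1 * ((⌊x.2⌋ : ℝ) - x.2)| + |(edge v l).2 * ((⌊x.1⌋ : ℝ) - x.1)| :=
        abs_sub _ _
    _ ≤ _ := by
        rw [abs_mul, abs_mul]
        have := mul_le_mul_of_nonneg_left h2 (abs_nonneg (edge v l).1)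
        have := mul_le_mul_of_nonneg_left h1 (abs_nonneg (edge v l).2)
        linarith

/-- If there is no integer point strictly over the edge `i`, then `n - 1` half planes suffice. -/
theorem construct {v : ZMod n → ℤ × ℤ} (hv : IsPolygon n v) (i : ZMod n)
    (ho : ¬ ∃ z, Over v i z) :
    ∃ ε η : ℝ, 0 < ε ∧ 0 < η ∧
      Fits (poly v) {x | ∀ l, l ≠ i → -η ≤ side v l x + ε * side v i x} := by
  have hn := hv.1
  have : NeZero n := ⟨by omega⟩
  have him : i - 1 ≠ i := by
    intro h; apply one_ne (hn := hn)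
    have : (1 : ZMod n) = i - (i - 1) := by ring
    rw [this, h]; ring
  have hip : i + 1 ≠ i := by
    intro h; apply one_ne (hn := hn)
    have : (1 : ZMod n) = (i + 1) - i := by ring
    rw [this, h]; ring
  set S : ℝ := ∑ l, side v l 0 with hS
  have hS0 : 0 ≤ S := by
    rw [hS, ← sum_side v (toR (v i))]
    exact Finset.sum_nonneg fun l _ => side_nonneg hv l i
  clear_value S
  set U : ℝ := 2 * (S + n) with hU
  have hn0 : (0 : ℝ) < n := by exact_mod_cast (by omega : 0 < n)
  have hn1 : (1 : ℝ) ≤ n := by exact_mod_cast (by omega : 1 ≤ n)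
  have hU0 : 0 < U := by rw [hU]; linarith
  clear_value U
  have hden : 0 < 2 * (n : ℝ) + U + 1 := by linarith
  set ε : ℝ := 1 / (2 * n + U + 1) with hε
  have hε0 : 0 < ε := by rw [hε]; exact one_div_pos.mpr hden
  have hε1 : (n : ℝ) * ε ≤ 1 / 2 := by
    rw [hε, mul_one_div, div_le_iff₀ hden]; linarith
  have hεU : ε * U < 1 := by
    rw [hε, one_div, inv_mul_lt_iff₀ hden]; linarith
  clear_value ε
  have hεle : ε ≤ 1 := by
    have := le_mul_of_one_le_left hε0.le hn1
    linarith
  -- upper bound for `side v i`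
  have hsum : ∀ x, ∑ l ∈ Finset.univ.erase i, side v l x = S - side v i x := by
    intro x
    have := Finset.add_sum_erase Finset.univ (fun l => side v l x) (Finset.mem_univ i)
    rw [sum_side] at this
    linarith
  have hcard : ((Finset.univ.erase i : Finset (ZMod n)).card : ℝ) = n - 1 := by
    rw [Finset.card_erase_of_mem (Finset.mem_univ i), Finset.card_univ, ZMod.card]
    push_cast [show 1 ≤ n by omega]; ring
  have hupper : ∀ x, (∀ l, l ≠ i → -1 ≤ side v l x + ε * side v i x) → side v i x ≤ U := by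
    intro x hx
    have h1 : ∑ l ∈ Finset.univ.erase i, (-1 : ℝ) ≤
        ∑ l ∈ Finset.univ.erase i, (side v l x + ε * side v i x) :=
      Finset.sum_le_sum fun l hl => hx l (Finset.ne_of_mem_erase hl)
    rw [Finset.sum_add_distrib, Finset.sum_const, Finset.sum_const, nsmul_eq_mul, nsmul_eq_mul,
      hcard, hsum] at h1
    by_contra hcon
    push Not at hcon
    have h2 : 0 < side v i x := hU0.trans hcon
    have h3 := mul_le_mul_of_nonneg_right hε1 h2.le
    have h4 := mul_pos hε0 h2
    linarith
  -- lower bound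
  set C : ℝ := ∑ l : ZMod n, (|(edge v l).1| + |(edge v l).2|) with hC
  have hCl : ∀ l, |(edge v l).1| + |(edge v l).2| ≤ C := by
    intro l
    rw [hC]
    exact Finset.single_le_sum (f := fun l => |(edge v l).1| + |(edge v l).2|)
      (fun l _ => by positivity) (Finset.mem_univ l)
  have hC0 : 0 ≤ C := le_trans (by positivity) (hCl i)
  clear_value C
  set T : ℝ := (C + 2) / ε with hT
  have hTC : C + 2 ≤ T := by
    rw [hT, le_div_iff₀ hε0]; exact mul_le_of_le_one_right (by linarith) hεle
  have hεT : ε * T = C + 2 := by rw [hT]; field_simp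
  clear_value T
  have hlower : ∀ x, (∀ l, l ≠ i → -1 ≤ side v l x + ε * side v i x) → -T ≤ side v i x := by
    intro x hx
    by_contra hcon
    push Not at hcon
    have h3 : ε * side v i x < ε * (-T) := mul_lt_mul_of_pos_left hcon hε0
    apply ho
    refine ⟨(⌊x.1⌋, ⌊x.2⌋), ?_, ?_, ?_⟩
    · have h1 := abs_le.mp ((side_round v i x).trans (hCl i))
      linarith [h1.2]
    · have h1 := abs_le.mp ((side_round v (i - 1) x).trans (hCl _))
      have h2 := hx _ him
      linarith [h1.1]
    · have h1 := abs_le.mp ((side_round v (i + 1) x).trans (hCl _))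
      have h2 := hx _ hip
      linarith [h1.1]
  -- boundedness
  set Q1 : Set (ℝ × ℝ) := {x | ∀ l, l ≠ i → -1 ≤ side v l x + ε * side v i x} with hQ1
  have hbox : ∃ R : ℝ, ∀ x ∈ Q1, |x.1| ≤ R ∧ |x.2| ≤ R := by
    set B : ℝ := S + T + U + 2 * n + 2 with hB
    have hD := det_edge_pos hv i
    set D := det (edge v (i - 1)) (edge v i) with hDdef
    have hT0 : 0 ≤ T := by linarith
    have hB0 : 0 ≤ B := by rw [hB]; linarith
    clear_value B
    have hcoord : ∀ x ∈ Q1, |side v i x| ≤ B ∧ |side v (i - 1) x| ≤ B := by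
      intro x hx
      have h1 := hupper x hx
      have h2 := hlower x hx
      have hlow : ∀ l, l ≠ i → -2 ≤ side v l x := by
        intro l hl
        have h3 := hx l hl
        have h4 : ε * side v i x ≤ ε * U := mul_le_mul_of_nonneg_left h1 hε0.le
        linarith
      have h5 : side v (i - 1) x ≤ S + T + 2 * n := by
        have h6 := Finset.add_sum_erase (Finset.univ.erase i) (fun l => side v l x)
          (Finset.mem_erase.mpr ⟨him, Finset.mem_univ (i - 1)⟩)
        rw [hsum] at h6
        have h7 : ∑ l ∈ (Finset.univ.erase i).erase (i - 1), (-2 : ℝ) ≤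
            ∑ l ∈ (Finset.univ.erase i).erase (i - 1), side v l x :=
          Finset.sum_le_sum fun l hl =>
            hlow l (Finset.ne_of_mem_erase (Finset.mem_of_mem_erase hl))
        rw [Finset.sum_const, nsmul_eq_mul] at h7
        have h8 : (((Finset.univ.erase i).erase (i - 1) : Finset (ZMod n)).card : ℝ) ≤ n := by
          have : ((Finset.univ.erase i).erase (i - 1) : Finset (ZMod n)).card ≤ n := by
            calc _ ≤ (Finset.univ : Finset (ZMod n)).card :=
                  Finset.card_le_card ((Finset.erase_subset _ _).trans (Finset.erase_subset _ _))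
              _ = n := by rw [Finset.card_univ, ZMod.card]
          exact_mod_cast this
        linarith
      constructor
      · rw [abs_le]; constructor <;> linarith
      · rw [abs_le]
        have := hlow _ him
        constructor <;> linarith
    refine ⟨|(toR (v i)).1| + |(toR (v i)).2| + (B * (|(edge v i).1| + |(edge v (i - 1)).1|) +
      B * (|(edge v i).2| + |(edge v (i - 1)).2|)) / D, ?_⟩
    intro x hx
    obtain ⟨h1, h2⟩ := hcoord x hx
    have e1 := vertex_identity v i (1, 0) x
    have e2 := vertex_identity v i (0, 1) x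
    simp only [dot, one_mul, zero_mul, add_zero, zero_add] at e1 e2
    have k1 : |x.1 - (toR (v i)).1| ≤ B * (|(edge v i).1| + |(edge v (i - 1)).1|) / D := by
      have q1 : D * |x.1 - (toR (v i)).1| =
          |side v (i - 1) x * (edge v i).1 - side v i x * (edge v (i - 1)).1| := by
        rw [← e1, abs_mul, abs_of_pos hD]
      have q2 := abs_sub (side v (i - 1) x * (edge v i).1) (side v i x * (edge v (i - 1)).1)
      rw [abs_mul, abs_mul] at q2
      have q3 := mul_le_mul_of_nonneg_right h1 (abs_nonneg (edge v (i - 1)).1)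
      have q4 := mul_le_mul_of_nonneg_right h2 (abs_nonneg (edge v i).1)
      rw [le_div_iff₀ hD]
      linarith
    have k2 : |x.2 - (toR (v i)).2| ≤ B * (|(edge v i).2| + |(edge v (i - 1)).2|) / D := by
      have q1 : D * |x.2 - (toR (v i)).2| =
          |side v (i - 1) x * (edge v i).2 - side v i x * (edge v (i - 1)).2| := by
        rw [← e2, abs_mul, abs_of_pos hD]
      have q2 := abs_sub (side v (i - 1) x * (edge v i).2) (side v i x * (edge v (i - 1)).2)
      rw [abs_mul, abs_mul] at q2
      have q3 := mul_le_mul_of_nonneg_right h1 (abs_nonneg (edge v (i - 1)).2)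
      have q4 := mul_le_mul_of_nonneg_right h2 (abs_nonneg (edge v i).2)
      rw [le_div_iff₀ hD]
      linarith
    have p1 : 0 ≤ B * (|(edge v i).1| + |(edge v (i - 1)).1|) / D :=
      div_nonneg (mul_nonneg hB0 (add_nonneg (abs_nonneg _) (abs_nonneg _))) hD.le
    have p2 : 0 ≤ B * (|(edge v i).2| + |(edge v (i - 1)).2|) / D :=
      div_nonneg (mul_nonneg hB0 (add_nonneg (abs_nonneg _) (abs_nonneg _))) hD.le
    rw [add_div]
    constructor
    · have := abs_sub_abs_le_abs_sub x.1 (toR (v i)).1
      have := abs_nonneg (toR (v i)).2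
      linarith
    · have := abs_sub_abs_le_abs_sub x.2 (toR (v i)).2
      have := abs_nonneg (toR (v i)).1
      linarith
  obtain ⟨R, hR⟩ := hbox
  have hbdd : Bornology.IsBounded Q1 := by
    apply (Metric.isBounded_closedBall (x := (0 : ℝ × ℝ)) (r := R)).subset
    intro x hx
    rw [mem_closedBall_zero_iff, Prod.norm_def, max_le_iff]
    exact hR x hx
  -- the finitely many integer points of `Q1` outside the polygon
  have hfin : {z : ℤ × ℤ | toR z ∈ Q1 ∧ toR z ∉ poly v}.Finite := by
    apply ((Set.finite_Icc (-⌈R⌉) ⌈R⌉).prod (Set.finite_Icc (-⌈R⌉) ⌈R⌉)).subset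
    rintro z ⟨hz, -⟩
    obtain ⟨h1, h2⟩ := hR _ hz
    rw [abs_le] at h1 h2
    have hc := Int.le_ceil R
    simp only [toR] at h1 h2
    refine ⟨⟨?_, ?_⟩, ⟨?_, ?_⟩⟩
    · have : (-⌈R⌉ : ℝ) ≤ z.1 := by linarith [h1.1]
      exact_mod_cast this
    · have : (z.1 : ℝ) ≤ ⌈R⌉ := by linarith [h1.2]
      exact_mod_cast this
    · have : (-⌈R⌉ : ℝ) ≤ z.2 := by linarith [h2.1]
      exact_mod_cast this
    · have : (z.2 : ℝ) ≤ ⌈R⌉ := by linarith [h2.2]
      exact_mod_cast this
  have hbad : ∀ z : {z : ℤ × ℤ | toR z ∈ Q1 ∧ toR z ∉ poly v}, ∃ l, l ≠ i ∧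
      side v l (toR z.1) + ε * side v i (toR z.1) < 0 := by
    rintro ⟨z, hz1, hz2⟩
    by_contra hcon
    push Not at hcon
    rcases lt_or_ge (side v i (toR z)) 0 with h | h
    · apply ho
      refine ⟨z, h, ?_, ?_⟩
      · have := hcon _ him
        have h9 := mul_neg_of_pos_of_neg hε0 h
        linarith
      · have := hcon _ hip
        have h9 := mul_neg_of_pos_of_neg hε0 h
        linarith
    · rw [mem_poly_iff hv] at hz2
      push Not at hz2
      obtain ⟨l, hl⟩ := hz2
      have hli : l ≠ i := by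
        rintro rfl; linarith
      have h1 := hcon l hli
      simp only at h1
      have h2 : side v l (toR z) ≤ -1 := by
        obtain ⟨t, ht⟩ := side_int hv l z
        have hpos : (1 : ℝ) ≤ len v l := by exact_mod_cast (len_data hv l).1
        rw [ht] at hl ⊢
        have h3 : (t : ℝ) < 0 := by
          by_contra hc
          push Not at hc
          have := mul_nonneg (zero_le_one.trans hpos) hc
          linarith
        have h4 : t ≤ -1 := by
          have : t < 0 := by exact_mod_cast h3
          omega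
        have h5 : (t : ℝ) ≤ -1 := by exact_mod_cast h4
        have h6 := mul_le_mul_of_nonneg_left h5 (zero_le_one.trans hpos)
        linarith
      have h3 := hupper _ hz1
      have h4 : ε * side v i (toR z) ≤ ε * U := mul_le_mul_of_nonneg_left h3 hε0.le
      linarith
  have : Finite {z : ℤ × ℤ | toR z ∈ Q1 ∧ toR z ∉ poly v} := hfin
  choose g hg1 hg2 using hbad
  obtain ⟨δ, hδ0, hδ⟩ := exists_pos_le
    (fun z => -(side v (g z) (toR z.1) + ε * side v i (toR z.1)))
    (fun z => by have := hg2 z; linarith)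
  set η : ℝ := min 1 (δ / 2) with hη
  have hη0 : 0 < η := lt_min one_pos (by linarith)
  have hη1 : η ≤ 1 := min_le_left _ _
  have hηδ : η < δ := (min_le_right _ _).trans_lt (by linarith)
  have hsub : {x | ∀ l, l ≠ i → -η ≤ side v l x + ε * side v i x} ⊆ Q1 := by
    intro x hx l hl
    have := hx l hl
    linarith
  refine ⟨ε, η, hε0, hη0, hbdd.subset hsub, ⟨{x | ∀ l, l ≠ i → -η < side v l x + ε * side v i x},
    ?_, ?_, ?_⟩, ?_⟩
  · have : {x : ℝ × ℝ | ∀ l, l ≠ i → -η < side v l x + ε * side v i x} =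
        ⋂ l, ⋂ (_ : l ≠ i), {x | -η < side v l x + ε * side v i x} := by
      ext x; simp
    rw [this]
    refine isOpen_iInter_of_finite fun l => isOpen_iInter_of_finite fun _ => ?_
    exact isOpen_lt continuous_const
      ((side_continuous v l).add (continuous_const.mul (side_continuous v i)))
  · intro x hx l _
    have h1 := poly_subset_side hv hx l
    have h2 := poly_subset_side hv hx i
    have := mul_nonneg hε0.le h2
    linarith
  · intro x hx l hl
    exact (hx l hl).le
  · intro z hz
    by_contra hcon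
    have h1 := hδ ⟨z, hsub hz, hcon⟩
    have h2 := hz _ (hg1 ⟨z, hsub hz, hcon⟩)
    simp only at h1 h2
    linarith

end H230R2.Sail
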