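import Mathlib
import Pool.Agent.H230R2.Sail.Construct

namespace H230R2.Sail

variable {n : ℕ}

lemma step {v : ZMod n → ℤ × ℤ} (hv : IsPolygon n v) {l : ZMod n} {z : ℤ × ℤ}
    (h : side v l (toR z) < -(len v l : ℝ)) :
    ∃ (z' : ℤ × ℤ) (t : ℝ), 0 < t ∧ t ≤ 1 / 2 ∧ side v l (toR z') < 0 ∧
      (∀ k, t * side v k (toR z) ≤ side v k (toR z')) ∧
      ∀ (b : ℝ × ℝ) (H : ℝ), (∀ k, dot b (toR (v k)) ≤ H) → dot b (toR z) ≤ H →
        dot b (toR z') ≤ H := by
  obtain ⟨hpos, u1, u2, f1, f2, h1, h2, hf⟩ := len_data hv l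
  have hg : (0 : ℝ) < len v l := by exact_mod_cast hpos
  have hg1 : (1 : ℝ) ≤ len v l := by exact_mod_cast hpos
  have h1' : ((v (l + 1)).1 : ℝ) - (v l).1 = len v l * u1 := by exact_mod_cast h1
  have h2' : ((v (l + 1)).2 : ℝ) - (v l).2 = len v l * u2 := by exact_mod_cast h2
  have hf' : (u1 : ℝ) * f2 - u2 * f1 = -1 := by exact_mod_cast hf
  obtain ⟨x1, hx1⟩ : ∃ x1 : ℤ, x1 = z.1 - (v l).1 := ⟨_, rfl⟩
  obtain ⟨x2, hx2⟩ : ∃ x2 : ℤ, x2 = z.2 - (v l).2 := ⟨_, rfl⟩
  obtain ⟨d, hd⟩ : ∃ d : ℤ, d = u2 * x1 - u1 * x2 := ⟨_, rfl⟩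
  obtain ⟨s, hs⟩ : ∃ s : ℤ, s = x2 * f1 - x1 * f2 := ⟨_, rfl⟩
  have hside : side v l (toR z) = -(len v l : ℝ) * d := by
    simp only [side, det, toR, Prod.fst_sub, Prod.snd_sub]
    rw [h1', h2', hd, hx1, hx2]
    push_cast
    ring
  have hd1 : (1 : ℝ) < d := by
    rw [hside] at h
    by_contra hcon
    push Not at hcon
    have := mul_le_mul_of_nonneg_left hcon hg.le
    linarith
  have hd2 : 2 ≤ d := by
    have : 1 < d := by exact_mod_cast hd1
    omega
  have hdpos : 0 < d := by omega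
  have hdR : (0 : ℝ) < d := by exact_mod_cast hdpos
  have hd2R : (2 : ℝ) ≤ d := by exact_mod_cast hd2
  obtain ⟨j, hj⟩ : ∃ j : ℤ, j = -((-s) / d) := ⟨_, rfl⟩
  obtain ⟨μ, hμ⟩ : ∃ μ : ℤ, μ = (-s) % d := ⟨_, rfl⟩
  have hμ0 : 0 ≤ μ := by rw [hμ]; exact Int.emod_nonneg _ hdpos.ne'
  have hμ1 : μ < d := by rw [hμ]; exact Int.emod_lt_of_pos _ hdpos
  have hdj : d * j = s + μ := by
    have := Int.mul_ediv_add_emod (-s) d
    rw [hj, hμ]; linarith
  have hμ1' : (μ : ℝ) ≤ d - 1 := by
    have : μ ≤ d - 1 := by omega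
    exact_mod_cast this
  have hμ0' : (0 : ℝ) ≤ μ := by exact_mod_cast hμ0
  have hdj' : (d : ℝ) * j = s + μ := by exact_mod_cast hdj
  obtain ⟨z', hz'⟩ : ∃ z' : ℤ × ℤ, z' = ((v l).1 + j * u1 + f1, (v l).2 + j * u2 + f2) :=
    ⟨_, rfl⟩
  have hs' : side v l (toR z') = -(len v l : ℝ) := by
    simp only [side, det, toR, Prod.fst_sub, Prod.snd_sub, hz']
    rw [h1', h2']
    push_cast
    linear_combination (len v l : ℝ) * hf'
  have hX1' : (z.1 : ℝ) = (v l).1 + (s * u1 + d * f1) := by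
    have : z.1 = (v l).1 + (s * u1 + d * f1) := by
      have : x1 = s * u1 + d * f1 := by rw [hs, hd]; linear_combination x1 * hf
      rw [← this, hx1]; ring
    exact_mod_cast this
  have hX2' : (z.2 : ℝ) = (v l).2 + (s * u2 + d * f2) := by
    have : z.2 = (v l).2 + (s * u2 + d * f2) := by
      have : x2 = s * u2 + d * f2 := by rw [hs, hd]; linear_combination x2 * hf
      rw [← this, hx2]; ring
    exact_mod_cast this
  have hV1 : ((v (l + 1)).1 : ℝ) = (v l).1 + len v l * u1 := by linarith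
  have hV2 : ((v (l + 1)).2 : ℝ) = (v l).2 + len v l * u2 := by linarith
  refine ⟨z', 1 / d, by positivity, one_div_le_one_div_of_le (by norm_num) hd2R,
    by rw [hs']; linarith, ?_, ?_⟩
  · intro k
    have hA := side_nonneg hv k l
    have hB := side_nonneg hv k (l + 1)
    have hid : (len v l : ℝ) * (d * side v k (toR z')) =
        len v l * (d - 1 - μ) * side v k (toR (v l)) +
        μ * ((len v l - 1) * side v k (toR (v l)) + side v k (toR (v (l + 1)))) +
        len v l * side v k (toR z) := by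
      simp only [side, det, toR, Prod.fst_sub, Prod.snd_sub, hz']
      rw [hX1', hX2', hV1, hV2]
      push_cast
      linear_combination (len v l : ℝ) * ((((v (k + 1)).1 : ℝ) - (v k).1) * u2 -
        (((v (k + 1)).2 : ℝ) - (v k).2) * u1) * hdj'
    have t1 : 0 ≤ (len v l : ℝ) * (d - 1 - μ) * side v k (toR (v l)) :=
      mul_nonneg (mul_nonneg hg.le (by linarith)) hA
    have t2 : 0 ≤ (μ : ℝ) * ((len v l - 1) * side v k (toR (v l)) +
        side v k (toR (v (l + 1)))) := by
      apply mul_nonneg hμ0'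
      have := mul_nonneg (sub_nonneg.mpr hg1) hA
      linarith
    have t3 : (len v l : ℝ) * side v k (toR z) ≤ len v l * (d * side v k (toR z')) := by
      linarith
    have t4 := le_of_mul_le_mul_left t3 hg
    rw [one_div, inv_mul_le_iff₀ hdR]
    exact t4
  · intro b H hb hz
    have hA := hb l
    have hB := hb (l + 1)
    have hid : (len v l : ℝ) * (d * dot b (toR z')) =
        len v l * (d - 1 - μ) * dot b (toR (v l)) +
        μ * ((len v l - 1) * dot b (toR (v l)) + dot b (toR (v (l + 1)))) +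
        len v l * dot b (toR z) := by
      simp only [dot, toR, hz']
      rw [hX1', hX2', hV1, hV2]
      push_cast
      linear_combination (len v l : ℝ) * (b.1 * u1 + b.2 * u2) * hdj'
    have t1 := mul_le_mul_of_nonneg_left hA
      (mul_nonneg hg.le (by linarith : (0 : ℝ) ≤ d - 1 - μ))
    have t2 := mul_le_mul_of_nonneg_left hA (mul_nonneg hμ0' (sub_nonneg.mpr hg1))
    have t3 := mul_le_mul_of_nonneg_left hB hμ0'
    have t4 := mul_le_mul_of_nonneg_left hz hg.le
    have t5 : (len v l : ℝ) * (d * dot b (toR z')) ≤ len v l * (d * H) := by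
      rw [hid]; linarith
    exact le_of_mul_le_mul_left (le_of_mul_le_mul_left t5 hg) hdR

lemma pierce {ι : Type*} (I : ι → Set ℝ) (hoc : ∀ i, (I i).OrdConnected) :
    ∀ (m : ℕ) (s : Finset ι), (∀ i ∈ s, (I i).Nonempty) →
    (∃ f : Fin (m + 1) → ι, (∀ i, f i ∈ s) ∧
      ∀ i j, i ≠ j → Disjoint (I (f i)) (I (f j))) ∨
    ∃ p : Fin m → ℝ, ∀ i ∈ s, ∃ j, p j ∈ I i := by
  classical
  intro m
  induction m with
  | zero =>
    intro s _
    rcases s.eq_empty_or_nonempty with h | ⟨i, hi⟩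
    · right; exact ⟨fun _ => 0, by simp [h]⟩
    · left
      refine ⟨fun _ => i, fun _ => hi, fun a b hab => ?_⟩
      exact (hab (Subsingleton.elim (α := Fin 1) a b)).elim
  | succ m ih =>
    intro s hne
    rcases s.eq_empty_or_nonempty with h | hs
    · right; exact ⟨fun _ => 0, by simp [h]⟩
    obtain ⟨i0, hi0, hmin⟩ := Finset.exists_min_image s (fun i => lowerClosure (I i)) hs
    rcases ih (s.filter fun i => Disjoint (I i0) (I i))
      (fun i hi => hne i (Finset.mem_filter.mp hi).1) with ⟨f, hf1, hf2⟩ | ⟨p, hp⟩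
    · left
      refine ⟨Fin.cons i0 f, ?_, ?_⟩
      · intro i
        refine Fin.cases ?_ (fun j => ?_) i
        · simpa using hi0
        · simpa using (Finset.mem_filter.mp (hf1 j)).1
      · intro i j
        refine Fin.cases ?_ (fun i => ?_) i <;> refine Fin.cases ?_ (fun j => ?_) j
        · intro h; exact (h rfl).elim
        · intro _; simpa using (Finset.mem_filter.mp (hf1 j)).2
        · intro _; simpa using (Finset.mem_filter.mp (hf1 i)).2.symm
        · intro h
          have := hf2 i j (fun e => h (by rw [e]))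
          simpa using this
    · right
      have hx : ∀ i : {i // i ∈ s ∧ ¬ Disjoint (I i0) (I i)}, ∃ x, x ∈ I i0 ∧ x ∈ I i.1 := by
        rintro ⟨i, _, h⟩
        exact Set.not_disjoint_iff.mp h
      choose x hx1 hx2 using hx
      have hfin : Finite {i // i ∈ s ∧ ¬ Disjoint (I i0) (I i)} :=
        Finite.of_injective (fun i => (⟨i.1, i.2.1⟩ : s)) (by
          intro a b h; apply Subtype.ext; simpa using congrArg Subtype.val h)
      have hnonempty : Nonempty {i // i ∈ s ∧ ¬ Disjoint (I i0) (I i)} := by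
        refine ⟨⟨i0, hi0, ?_⟩⟩
        rw [disjoint_self]
        exact (hne i0 hi0).ne_empty
      obtain ⟨i1, hi1⟩ := Finite.exists_max x
      refine ⟨Fin.cons (x i1) p, ?_⟩
      intro i hi
      by_cases hd : Disjoint (I i0) (I i)
      · obtain ⟨j, hj⟩ := hp i (Finset.mem_filter.mpr ⟨hi, hd⟩)
        exact ⟨j.succ, by simpa using hj⟩
      · refine ⟨0, ?_⟩
        have h1 : x i1 ∈ lowerClosure (I i) :=
          hmin i hi (subset_lowerClosure (hx1 i1))
        obtain ⟨w, hw1, hw2⟩ := h1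
        simp only [Fin.cons_zero]
        exact (hoc i).out (hx2 ⟨i, hi, hd⟩) hw1 ⟨hi1 _, hw2⟩

/-- the directions other than `a` -/
def dir (a : ℝ × ℝ) (t : ℝ) : ℝ × ℝ :=
  ((t ^ 2 - 1) * a.1 + 2 * t * a.2, (t ^ 2 - 1) * a.2 - 2 * t * a.1)

/-- the directions that cut off `z` -/
def cuts (v : ZMod n → ℤ × ℤ) (a : ℝ × ℝ) (z : ℤ × ℤ) : Set ℝ :=
  {t | ∀ k, dot (dir a t) (toR (v k)) < dot (dir a t) (toR z)}

lemma cuts_ordConnected (v : ZMod n → ℤ × ℤ) (a : ℝ × ℝ) (z : ℤ × ℤ)
    (hz : ∃ k, dot a (toR z) ≤ dot a (toR (v k))) : (cuts v a z).OrdConnected := by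
  constructor
  intro s hs u hu t ht k
  obtain ⟨h1, h2⟩ := ht
  rcases eq_or_lt_of_le h1 with rfl | h1
  · exact hs k
  rcases eq_or_lt_of_le h2 with rfl | h2
  · exact hu k
  have key : ∀ (k : ZMod n) (r : ℝ), dot (dir a r) (toR z) - dot (dir a r) (toR (v k)) =
      (r ^ 2 - 1) * (dot a (toR z) - dot a (toR (v k))) -
      2 * r * (a.1 * ((toR z).2 - (toR (v k)).2) - a.2 * ((toR z).1 - (toR (v k)).1)) := by
    intro k r; simp only [dot, dir]; ring
  have hs' : ∀ k, 0 < (s ^ 2 - 1) * (dot a (toR z) - dot a (toR (v k))) -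
      2 * s * (a.1 * ((toR z).2 - (toR (v k)).2) - a.2 * ((toR z).1 - (toR (v k)).1)) := by
    intro k; rw [← key]; exact sub_pos.mpr (hs k)
  have hu' : ∀ k, 0 < (u ^ 2 - 1) * (dot a (toR z) - dot a (toR (v k))) -
      2 * u * (a.1 * ((toR z).2 - (toR (v k)).2) - a.2 * ((toR z).1 - (toR (v k)).1)) := by
    intro k; rw [← key]; exact sub_pos.mpr (hu k)
  by_cases hsu : 0 < 1 + s * u
  · have e1 : 0 < 1 + t * u := by
      rcases le_or_gt 0 u with h | h
      · nlinarith [mul_le_mul_of_nonneg_right h1.le h]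
      · nlinarith
    have e2 : 0 < 1 + s * t := by
      rcases le_or_gt 0 s with h | h
      · nlinarith
      · nlinarith [mul_le_mul_of_nonpos_left h2.le h.le]
    apply sub_pos.mp
    rw [key]
    have f1 := mul_pos (mul_pos (sub_pos.mpr h2) e1) (hs' k)
    have f2 := mul_pos (mul_pos (sub_pos.mpr h1) e2) (hu' k)
    have f3 : 0 < (u - s) * (1 + s * u) := mul_pos (by linarith) hsu
    have f4 : 0 < (u - s) * (1 + s * u) *
        ((t ^ 2 - 1) * (dot a (toR z) - dot a (toR (v k))) -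
        2 * t * (a.1 * ((toR z).2 - (toR (v k)).2) -
          a.2 * ((toR z).1 - (toR (v k)).1))) := by
      refine lt_of_lt_of_eq (add_pos f1 f2) ?_
      ring
    exact (pos_iff_pos_of_mul_pos f4).mp f3
  · exfalso
    push Not at hsu
    obtain ⟨k0, hk0⟩ := hz
    have hsu2 : s < u := h1.trans h2
    have hs0 : s < 0 := by
      by_contra h; push Not at h
      have := mul_nonneg h (h.trans hsu2.le); linarith
    have hu0 : 0 < u := by
      by_contra h; push Not at h
      have := mul_nonneg_of_nonpos_of_nonpos hs0.le h; linarith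
    have g1 := mul_pos hu0 (hs' k0)
    have g2 := mul_pos (neg_pos.mpr hs0) (hu' k0)
    have g3 : 0 < ((u - s) * (-(1 + s * u))) * (dot a (toR z) - dot a (toR (v k0))) := by
      refine lt_of_lt_of_eq (add_pos g1 g2) ?_
      ring
    have g4 : 0 ≤ (u - s) * (-(1 + s * u)) := mul_nonneg (by linarith) (by linarith)
    have g5 := mul_nonneg g4 (sub_nonneg.mpr hk0)
    linarith

end H230R2.Sail
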