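import Mathlib
import Pool.Agent.H230R2.Sail.General

namespace H230R2.Sail

variable {n : ℕ}

lemma exists_side_neg {v : ZMod n → ℤ × ℤ} (hv : IsPolygon n v) {x : ℝ × ℝ} (h : x ∉ poly v) :
    ∃ l, side v l x < 0 := by
  rw [mem_poly_iff hv] at h
  push Not at h
  exact h

lemma cuts_nonempty {v : ZMod n → ℤ × ℤ} (hv : IsPolygon n v) {a : ℝ × ℝ} (ha : a ≠ 0)
    {z : ℤ × ℤ} (hP : toR z ∉ poly v) (hz : ∃ k, dot a (toR z) ≤ dot a (toR (v k))) :
    (cuts v a z).Nonempty := by
  obtain ⟨l, hl⟩ := exists_side_neg hv hP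
  obtain ⟨b, hb⟩ : ∃ b : ℝ × ℝ, b = ((edge v l).2, -(edge v l).1) := ⟨_, rfl⟩
  have hbw : ∀ k, 0 < dot b (toR z) - dot b (toR (v k)) := by
    intro k
    have h1 := side_nonneg hv l k
    have e : dot b (toR z) - dot b (toR (v k)) = side v l (toR (v k)) - side v l (toR z) := by
      rw [hb, side_eq, side_eq]
      simp only [dot, det, Prod.fst_sub, Prod.snd_sub]; ring
    rw [e]; linarith
  obtain ⟨x, hx⟩ : ∃ x : ℝ, x = dot a b := ⟨_, rfl⟩
  obtain ⟨y, hy⟩ : ∃ y : ℝ, y = a.1 * b.2 - a.2 * b.1 := ⟨_, rfl⟩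
  have hN : 0 < a.1 ^ 2 + a.2 ^ 2 := by
    rcases eq_or_ne a.1 0 with h | h
    · have : a.2 ≠ 0 := fun h2 => ha (Prod.ext h h2)
      positivity
    · positivity
  have e1 : (a.1 ^ 2 + a.2 ^ 2) * b.1 = x * a.1 - y * a.2 := by
    rw [hx, hy]; simp only [dot]; ring
  have e2 : (a.1 ^ 2 + a.2 ^ 2) * b.2 = x * a.2 + y * a.1 := by
    rw [hx, hy]; simp only [dot]; ring
  by_cases hy0 : y = 0
  · refine ⟨0, fun k => ?_⟩
    obtain ⟨k0, hk0⟩ := hz
    have e3 : ∀ k, (a.1 ^ 2 + a.2 ^ 2) * (dot b (toR z) - dot b (toR (v k))) =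
        x * (dot a (toR z) - dot a (toR (v k))) := by
      intro k
      rw [hy0] at e1 e2
      simp only [dot]
      linear_combination ((toR z).1 - (toR (v k)).1) * e1 + ((toR z).2 - (toR (v k)).2) * e2
    have h0 := mul_pos hN (hbw k0)
    rw [e3] at h0
    have hx0 : x < 0 := by
      by_contra h; push Not at h
      have := mul_nonneg h (sub_nonneg.mpr hk0)
      linarith
    have h1 := mul_pos hN (hbw k)
    rw [e3] at h1
    have h2 : dot a (toR z) - dot a (toR (v k)) < 0 := by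
      by_contra h; push Not at h
      have := mul_nonpos_of_nonpos_of_nonneg hx0.le h
      linarith
    simp only [dot, dir] at h2 ⊢
    linarith
  · obtain ⟨r, hr⟩ : ∃ r : ℝ, r = Real.sqrt (x ^ 2 + y ^ 2) := ⟨_, rfl⟩
    have hr2 : r ^ 2 = x ^ 2 + y ^ 2 := by rw [hr]; exact Real.sq_sqrt (by positivity)
    have hrx : 0 < r + x := by
      have : |x| < r := by
        have h0 : 0 < y ^ 2 := by positivity
        rw [hr, Real.lt_sqrt (abs_nonneg x), sq_abs]
        linarith
      have := neg_abs_le x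
      linarith
    refine ⟨-(r + x) / y, fun k => ?_⟩
    have hy2 : 0 < y ^ 2 := by positivity
    have f : y ^ 2 * (dot (dir a (-(r + x) / y)) (toR z) -
        dot (dir a (-(r + x) / y)) (toR (v k))) =
        2 * (r + x) * ((a.1 ^ 2 + a.2 ^ 2) * (dot b (toR z) - dot b (toR (v k)))) := by
      have e3 : (a.1 ^ 2 + a.2 ^ 2) * (dot b (toR z) - dot b (toR (v k))) =
          (x * a.1 - y * a.2) * ((toR z).1 - (toR (v k)).1) +
          (x * a.2 + y * a.1) * ((toR z).2 - (toR (v k)).2) := by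
        simp only [dot]
        linear_combination ((toR z).1 - (toR (v k)).1) * e1 + ((toR z).2 - (toR (v k)).2) * e2
      rw [e3]
      simp only [dot, dir]
      field_simp
      linear_combination (a.1 * ((toR z).1 - (toR (v k)).1) +
        a.2 * ((toR z).2 - (toR (v k)).2)) * hr2
    have g := mul_pos (mul_pos two_pos hrx) (mul_pos hN (hbw k))
    rw [← f] at g
    exact sub_pos.mp ((pos_iff_pos_of_mul_pos g).mp hy2)

/-- A direction cutting off two points which are not both cut off by `a` is a `dir a t`. -/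
lemma exists_dir {v : ZMod n → ℤ × ℤ} {a : ℝ × ℝ} (ha : a ≠ 0) {b : ℝ × ℝ}
    {z1 z2 : ℤ × ℤ} (h1 : ∀ k, dot b (toR (v k)) < dot b (toR z1))
    (h2 : ∀ k, dot b (toR (v k)) < dot b (toR z2))
    (hz : ∃ k, dot a (toR z1) ≤ dot a (toR (v k))) :
    ∃ t, t ∈ cuts v a z1 ∧ t ∈ cuts v a z2 := by
  obtain ⟨x, hx⟩ : ∃ x : ℝ, x = dot a b := ⟨_, rfl⟩
  obtain ⟨y, hy⟩ : ∃ y : ℝ, y = a.1 * b.2 - a.2 * b.1 := ⟨_, rfl⟩
  have hN : 0 < a.1 ^ 2 + a.2 ^ 2 := by
    rcases eq_or_ne a.1 0 with h | h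
    · have : a.2 ≠ 0 := fun h2 => ha (Prod.ext h h2)
      positivity
    · positivity
  have e1 : (a.1 ^ 2 + a.2 ^ 2) * b.1 = x * a.1 - y * a.2 := by
    rw [hx, hy]; simp only [dot]; ring
  have e2 : (a.1 ^ 2 + a.2 ^ 2) * b.2 = x * a.2 + y * a.1 := by
    rw [hx, hy]; simp only [dot]; ring
  by_cases hy0 : y = 0
  · obtain ⟨k0, hk0⟩ := hz
    have e3 : ∀ (w : ℤ × ℤ) k, (a.1 ^ 2 + a.2 ^ 2) * (dot b (toR w) - dot b (toR (v k))) =
        x * (dot a (toR w) - dot a (toR (v k))) := by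
      intro w k
      rw [hy0] at e1 e2
      simp only [dot]
      linear_combination ((toR w).1 - (toR (v k)).1) * e1 + ((toR w).2 - (toR (v k)).2) * e2
    have h0 := mul_pos hN (sub_pos.mpr (h1 k0))
    rw [e3] at h0
    have hx0 : x < 0 := by
      by_contra h; push Not at h
      have := mul_nonneg h (sub_nonneg.mpr hk0)
      linarith
    have main : ∀ w : ℤ × ℤ, (∀ k, dot b (toR (v k)) < dot b (toR w)) → (0 : ℝ) ∈ cuts v a w := by
      intro w hw k
      have h1 := mul_pos hN (sub_pos.mpr (hw k))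
      rw [e3] at h1
      have h2 : dot a (toR w) - dot a (toR (v k)) < 0 := by
        by_contra h; push Not at h
        have := mul_nonpos_of_nonpos_of_nonneg hx0.le h
        linarith
      simp only [dot, dir] at h2 ⊢
      linarith
    exact ⟨0, main z1 h1, main z2 h2⟩
  · obtain ⟨r, hr⟩ : ∃ r : ℝ, r = Real.sqrt (x ^ 2 + y ^ 2) := ⟨_, rfl⟩
    have hr2 : r ^ 2 = x ^ 2 + y ^ 2 := by rw [hr]; exact Real.sq_sqrt (by positivity)
    have hrx : 0 < r + x := by
      have : |x| < r := by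
        have h0 : 0 < y ^ 2 := by positivity
        rw [hr, Real.lt_sqrt (abs_nonneg x), sq_abs]
        linarith
      have := neg_abs_le x
      linarith
    have hy2 : 0 < y ^ 2 := by positivity
    have main : ∀ w : ℤ × ℤ, (∀ k, dot b (toR (v k)) < dot b (toR w)) →
        -(r + x) / y ∈ cuts v a w := by
      intro w hw k
      have f : y ^ 2 * (dot (dir a (-(r + x) / y)) (toR w) -
          dot (dir a (-(r + x) / y)) (toR (v k))) =
          2 * (r + x) * ((a.1 ^ 2 + a.2 ^ 2) * (dot b (toR w) - dot b (toR (v k)))) := by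
        have e3 : (a.1 ^ 2 + a.2 ^ 2) * (dot b (toR w) - dot b (toR (v k))) =
            (x * a.1 - y * a.2) * ((toR w).1 - (toR (v k)).1) +
            (x * a.2 + y * a.1) * ((toR w).2 - (toR (v k)).2) := by
          simp only [dot]
          linear_combination ((toR w).1 - (toR (v k)).1) * e1 + ((toR w).2 - (toR (v k)).2) * e2
        rw [e3]
        simp only [dot, dir]
        field_simp
        linear_combination (a.1 * ((toR w).1 - (toR (v k)).1) +
          a.2 * ((toR w).2 - (toR (v k)).2)) * hr2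
      have g := mul_pos (mul_pos two_pos hrx) (mul_pos hN (sub_pos.mpr (hw k)))
      rw [← f] at g
      exact sub_pos.mp ((pos_iff_pos_of_mul_pos g).mp hy2)
    exact ⟨_, main z1 h1, main z2 h2⟩

lemma segment_isClosed' (x y : ℝ × ℝ) : IsClosed (segment ℝ x y) := by
  rw [← convexHull_pair]
  exact ((Set.toFinite {x, y}).isCompact_convexHull ℝ).isClosed

/-- the finitely many outer points that matter -/
def near (v : ZMod n → ℤ × ℤ) : Set (ℤ × ℤ) :=
  {z | toR z ∉ poly v ∧ ∀ l, -(len v l : ℝ) ≤ side v l (toR z)}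

lemma dominate [NeZero n] {v : ZMod n → ℤ × ℤ} (hv : IsPolygon n v) :
    ∀ (N : ℕ) (z : ℤ × ℤ), toR z ∉ poly v → (∑ l, max 0 (-side v l (toR z))) < 2 ^ N →
      ∃ z' ∈ near v, ∀ (b : ℝ × ℝ) (H : ℝ), (∀ k, dot b (toR (v k)) ≤ H) →
        dot b (toR z) ≤ H → dot b (toR z') ≤ H := by
  intro N
  induction N with
  | zero =>
    intro z hz hN
    by_cases h : ∀ l, -(len v l : ℝ) ≤ side v l (toR z)
    · exact ⟨z, ⟨hz, h⟩, fun b H _ h => h⟩
    · exfalso
      push Not at h
      obtain ⟨l, hl⟩ := h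
      have h1 : (1 : ℝ) ≤ len v l := by exact_mod_cast (len_data hv l).1
      have h2 := Finset.single_le_sum (f := fun l => max 0 (-side v l (toR z)))
        (fun l _ => le_max_left _ _) (Finset.mem_univ l)
      have h3 := le_max_right 0 (-side v l (toR z))
      norm_num at hN
      linarith
  | succ N ih =>
    intro z hz hN
    by_cases h : ∀ l, -(len v l : ℝ) ≤ side v l (toR z)
    · exact ⟨z, ⟨hz, h⟩, fun b H _ h => h⟩
    · push Not at h
      obtain ⟨l, hl⟩ := h
      obtain ⟨z', t, ht0, ht1, hz1, hz2, hz3⟩ := step hv hl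
      have hz4 : toR z' ∉ poly v := by
        intro hc
        have := poly_subset_side hv hc l
        linarith
      have h5 : (∑ l, max 0 (-side v l (toR z'))) ≤
          1 / 2 * ∑ l, max 0 (-side v l (toR z)) := by
        rw [Finset.mul_sum]
        apply Finset.sum_le_sum
        intro k _
        have g1 := hz2 k
        have g2 := le_max_left 0 (-side v k (toR z))
        have g3 := le_max_right 0 (-side v k (toR z))
        apply max_le (by linarith)
        have g4 := mul_le_mul_of_nonneg_left g3 ht0.le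
        have g5 := mul_le_mul_of_nonneg_right ht1 g2
        linarith
      obtain ⟨z'', h6, h7⟩ := ih z' hz4 (by rw [pow_succ] at hN; linarith)
      exact ⟨z'', h6, fun b H h8 h9 => h7 b H h8 (hz3 b H h8 h9)⟩

lemma near_finite [NeZero n] {v : ZMod n → ℤ × ℤ} (hv : IsPolygon n v) : (near v).Finite := by
  obtain ⟨B, hB⟩ : ∃ B : ℝ, B = |∑ l, side v l 0| + ∑ l, (len v l : ℝ) := ⟨_, rfl⟩
  have hlen0 : ∀ l, (0 : ℝ) ≤ len v l := fun l => Nat.cast_nonneg _
  have hside : ∀ z ∈ near v, ∀ l, |side v l (toR z)| ≤ B := by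
    rintro z ⟨-, hz⟩ l
    have h1 := Finset.single_le_sum (f := fun l => (len v l : ℝ)) (fun l _ => hlen0 l)
      (Finset.mem_univ l)
    have h2 := abs_nonneg (∑ l, side v l 0)
    have h3 := le_abs_self (∑ l, side v l 0)
    have h4 := Finset.add_sum_erase Finset.univ (fun l => side v l (toR z)) (Finset.mem_univ l)
    have h5 := Finset.add_sum_erase Finset.univ (fun l => (len v l : ℝ)) (Finset.mem_univ l)
    rw [sum_side] at h4
    have h6 : ∑ k ∈ Finset.univ.erase l, (-(len v k : ℝ)) ≤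
        ∑ k ∈ Finset.univ.erase l, side v k (toR z) := Finset.sum_le_sum fun k _ => hz k
    rw [Finset.sum_neg_distrib] at h6
    have h7 := hz l
    have h8 := hlen0 l
    rw [abs_le, hB]
    constructor <;> linarith
  have hB0 : 0 ≤ B := by
    rw [hB]; exact add_nonneg (abs_nonneg _) (Finset.sum_nonneg fun l _ => hlen0 l)
  have hD := det_edge_pos hv 0
  obtain ⟨D, hDD⟩ : ∃ D, D = det (edge v (0 - 1)) (edge v 0) := ⟨_, rfl⟩
  rw [← hDD] at hD
  obtain ⟨E, hE⟩ : ∃ E : ℝ, E = |(edge v 0).1| + |(edge v 0).2| + |(edge v (0 - 1)).1| +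
    |(edge v (0 - 1)).2| := ⟨_, rfl⟩
  obtain ⟨R, hR⟩ : ∃ R : ℝ, R = |(toR (v 0)).1| + |(toR (v 0)).2| + B * E / D := ⟨_, rfl⟩
  have a1 := abs_nonneg (edge v 0).1
  have a2 := abs_nonneg (edge v 0).2
  have a3 := abs_nonneg (edge v (0 - 1)).1
  have a4 := abs_nonneg (edge v (0 - 1)).2
  have hbox : ∀ z ∈ near v, |(z.1 : ℝ)| ≤ R ∧ |(z.2 : ℝ)| ≤ R := by
    intro z hz
    have h1 := hside z hz 0
    have h2 := hside z hz (0 - 1)
    have e1 := vertex_identity v 0 (1, 0) (toR z)
    have e2 := vertex_identity v 0 (0, 1) (toR z)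
    simp only [dot, one_mul, zero_mul, add_zero, zero_add] at e1 e2
    rw [← hDD] at e1 e2
    have k1 : |(toR z).1 - (toR (v 0)).1| ≤ B * E / D := by
      have q1 : D * |(toR z).1 - (toR (v 0)).1| =
          |side v (0 - 1) (toR z) * (edge v 0).1 - side v 0 (toR z) * (edge v (0 - 1)).1| := by
        rw [← e1, abs_mul, abs_of_pos hD]
      have q2 := abs_sub (side v (0 - 1) (toR z) * (edge v 0).1)
        (side v 0 (toR z) * (edge v (0 - 1)).1)
      rw [abs_mul, abs_mul] at q2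
      have q3 := mul_le_mul_of_nonneg_right h1 a3
      have q4 := mul_le_mul_of_nonneg_right h2 a1
      have q5 := mul_nonneg hB0 (add_nonneg a2 a4)
      rw [le_div_iff₀ hD, hE]
      linarith
    have k2 : |(toR z).2 - (toR (v 0)).2| ≤ B * E / D := by
      have q1 : D * |(toR z).2 - (toR (v 0)).2| =
          |side v (0 - 1) (toR z) * (edge v 0).2 - side v 0 (toR z) * (edge v (0 - 1)).2| := by
        rw [← e2, abs_mul, abs_of_pos hD]
      have q2 := abs_sub (side v (0 - 1) (toR z) * (edge v 0).2)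
        (side v 0 (toR z) * (edge v (0 - 1)).2)
      rw [abs_mul, abs_mul] at q2
      have q3 := mul_le_mul_of_nonneg_right h1 a4
      have q4 := mul_le_mul_of_nonneg_right h2 a2
      have q5 := mul_nonneg hB0 (add_nonneg a1 a3)
      rw [le_div_iff₀ hD, hE]
      linarith
    have c1 := abs_sub_abs_le_abs_sub (toR z).1 (toR (v 0)).1
    have c2 := abs_sub_abs_le_abs_sub (toR z).2 (toR (v 0)).2
    have c3 := abs_nonneg (toR (v 0)).1
    have c4 := abs_nonneg (toR (v 0)).2
    have d1 : |(toR z).1| = |(z.1 : ℝ)| := rfl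
    have d2 : |(toR z).2| = |(z.2 : ℝ)| := rfl
    rw [hR]
    constructor <;> linarith
  apply ((Set.finite_Icc (-⌈R⌉) ⌈R⌉).prod (Set.finite_Icc (-⌈R⌉) ⌈R⌉)).subset
  intro z hz
  obtain ⟨h1, h2⟩ := hbox _ hz
  rw [abs_le] at h1 h2
  have hc := Int.le_ceil R
  refine ⟨⟨?_, ?_⟩, ⟨?_, ?_⟩⟩
  · have : (-⌈R⌉ : ℝ) ≤ z.1 := by linarith [h1.1]
    exact_mod_cast this
  · have : (z.1 : ℝ) ≤ ⌈R⌉ := by linarith [h1.2]
    exact_mod_cast this
  · have : (-⌈R⌉ : ℝ) ≤ z.2 := by linarith [h2.1]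
    exact_mod_cast this
  · have : (z.2 : ℝ) ≤ ⌈R⌉ := by linarith [h2.2]
    exact_mod_cast this

end H230R2.Sail
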