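import Mathlib
import Pool.Agent.H230R2.Sail.General2

namespace H230R2.Sail

variable {n : ℕ}

lemma no_recession [NeZero n] {v : ZMod n → ℤ × ℤ} (hv : IsPolygon n v) {K : ℕ}
    (b : Fin K → ℝ × ℝ) (h : Fin K → ℝ) (hh : ∀ j k, dot (b j) (toR (v k)) ≤ h j)
    (hno : ∀ z : ℤ × ℤ, (∀ j, dot (b j) (toR z) ≤ h j) → toR z ∈ poly v)
    (d : ℝ × ℝ) (hd : d ≠ 0) : ∃ j, 0 < dot (b j) d := by
  by_contra hcon
  push Not at hcon
  have hsum : ∑ l : ZMod n, det (edge v l) d = 0 := by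
    have h1 := sum_side v d
    have h2 : ∑ l, side v l d = ∑ l, (side v l 0 + det (edge v l) d) :=
      Finset.sum_congr rfl fun l _ => side_zero v l d
    rw [h2, Finset.sum_add_distrib] at h1
    linarith
  have hex : ∃ l, det (edge v l) d < 0 := by
    by_contra hc
    push Not at hc
    have hz := (Finset.sum_eq_zero_iff_of_nonneg (fun l _ => hc l)).mp hsum
    have z1 := hz 0 (Finset.mem_univ _)
    have z2 := hz (0 - 1) (Finset.mem_univ _)
    have hD := det_edge_pos hv 0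
    apply hd
    simp only [det] at z1 z2 hD
    have q1 : ((edge v (0 - 1)).1 * (edge v 0).2 - (edge v (0 - 1)).2 * (edge v 0).1) * d.1 = 0 := by
      linear_combination (edge v 0).1 * z2 - (edge v (0 - 1)).1 * z1
    have q2 : ((edge v (0 - 1)).1 * (edge v 0).2 - (edge v (0 - 1)).2 * (edge v 0).1) * d.2 = 0 := by
      linear_combination (edge v 0).2 * z2 - (edge v (0 - 1)).2 * z1
    exact Prod.ext ((mul_eq_zero.mp q1).resolve_left hD.ne')
      ((mul_eq_zero.mp q2).resolve_left hD.ne')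
  obtain ⟨l, hl⟩ := hex
  obtain ⟨hpos, u1, u2, f1, f2, h1, h2, hf⟩ := len_data hv l
  have hg : (0 : ℝ) < len v l := by exact_mod_cast hpos
  have hg1 : (1 : ℝ) ≤ len v l := by exact_mod_cast hpos
  have h1' : ((v (l + 1)).1 : ℝ) - (v l).1 = len v l * u1 := by exact_mod_cast h1
  have h2' : ((v (l + 1)).2 : ℝ) - (v l).2 = len v l * u2 := by exact_mod_cast h2
  have hf' : (u1 : ℝ) * f2 - u2 * f1 = -1 := by exact_mod_cast hf
  have hdet : det (edge v l) d = len v l * (u1 * d.2 - u2 * d.1) := by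
    simp only [det, edge, toR, Prod.fst_sub, Prod.snd_sub]
    rw [h1', h2']; ring
  obtain ⟨q, hq⟩ : ∃ q : ℝ, q = u1 * d.2 - u2 * d.1 := ⟨_, rfl⟩
  have hq0 : q < 0 := by
    rw [hdet, ← hq] at hl
    by_contra hc; push Not at hc
    have := mul_nonneg hg.le hc
    linarith
  -- `lam * d = α * u + f`
  obtain ⟨lam, hlam⟩ : ∃ lam : ℝ, lam = -1 / q := ⟨_, rfl⟩
  have hlam0 : 0 < lam := by rw [hlam]; exact div_pos_of_neg_of_neg (by norm_num) hq0
  have hlq : lam * q = -1 := by rw [hlam]; exact div_mul_cancel₀ _ hq0.ne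
  obtain ⟨α, hα⟩ : ∃ α : ℝ, α = lam * (d.2 * f1 - d.1 * f2) := ⟨_, rfl⟩
  have x1 : lam * d.1 = α * u1 + f1 := by
    rw [hα]
    linear_combination (lam * d.1) * hf' + (-(f1 : ℝ)) * hlq + (lam * f1) * hq
  have x2 : lam * d.2 = α * u2 + f2 := by
    rw [hα]
    linear_combination (lam * d.2) * hf' + (-(f2 : ℝ)) * hlq + (lam * f2) * hq
  obtain ⟨j, hj⟩ : ∃ j : ℤ, j = ⌈α⌉ := ⟨_, rfl⟩
  have hj1 : α ≤ j := by rw [hj]; exact Int.le_ceil α
  have hj2 : (j : ℝ) < α + 1 := by rw [hj]; exact Int.ceil_lt_add_one α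
  obtain ⟨z, hz⟩ : ∃ z : ℤ × ℤ, z = ((v l).1 + j * u1 + f1, (v l).2 + j * u2 + f2) := ⟨_, rfl⟩
  have hs' : side v l (toR z) = -(len v l : ℝ) := by
    simp only [side, det, toR, Prod.fst_sub, Prod.snd_sub, hz]
    rw [h1', h2']
    push_cast
    linear_combination (len v l : ℝ) * hf'
  have hV1 : ((v (l + 1)).1 : ℝ) = (v l).1 + len v l * u1 := by linarith
  have hV2 : ((v (l + 1)).2 : ℝ) = (v l).2 + len v l * u2 := by linarith
  have hmem : toR z ∈ poly v := by
    apply hno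
    intro i
    have hid : (len v l : ℝ) * dot (b i) (toR z) =
        (len v l - (j - α)) * dot (b i) (toR (v l)) + (j - α) * dot (b i) (toR (v (l + 1))) +
        len v l * (lam * dot (b i) d) := by
      simp only [dot, toR, hz]
      rw [hV1, hV2]
      push_cast
      linear_combination (-(len v l : ℝ) * (b i).1) * x1 + (-(len v l : ℝ) * (b i).2) * x2
    have t1 := mul_le_mul_of_nonneg_left (hh i l) (by linarith : 0 ≤ (len v l : ℝ) - (j - α))
    have t2 := mul_le_mul_of_nonneg_left (hh i (l + 1)) (by linarith : 0 ≤ (j : ℝ) - α)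
    have t3 := mul_nonpos_of_nonneg_of_nonpos hg.le
      (mul_nonpos_of_nonneg_of_nonpos hlam0.le (hcon i))
    have t4 : (len v l : ℝ) * dot (b i) (toR z) ≤ len v l * h i := by rw [hid]; linarith
    exact le_of_mul_le_mul_left t4 hg
  have := poly_subset_side hv hmem l
  linarith

lemma dot_continuous (b : ℝ × ℝ) : Continuous (dot b) := by unfold dot; fun_prop

/-- Directions which cut off all outer integer points give a fitting intersection. -/
lemma fits_of_cut [NeZero n] {v : ZMod n → ℤ × ℤ} (hv : IsPolygon n v) {K : ℕ}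
    (b : Fin (K + 1) → ℝ × ℝ)
    (hcut : ∀ z : ℤ × ℤ, toR z ∉ poly v → ∃ j, ∀ k, dot (b j) (toR (v k)) < dot (b j) (toR z)) :
    ∃ Q, Fits (poly v) Q ∧ IsMeet (K + 1) Q := by
  have hmax : ∀ j, ∃ k, ∀ i, dot (b j) (toR (v i)) ≤ dot (b j) (toR (v k)) := by
    intro j
    exact Finite.exists_max (fun i : ZMod n => dot (b j) (toR (v i)))
  choose k hk using hmax
  obtain ⟨h, hh⟩ : ∃ h : Fin (K + 1) → ℝ, h = fun j => dot (b j) (toR (v (k j))) := ⟨_, rfl⟩
  have hle : ∀ j i, dot (b j) (toR (v i)) ≤ h j := by intro j i; rw [hh]; exact hk j i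
  have hno : ∀ z : ℤ × ℤ, (∀ j, dot (b j) (toR z) ≤ h j) → toR z ∈ poly v := by
    intro z hz
    by_contra hc
    obtain ⟨j, hj⟩ := hcut z hc
    have h1 := hj (k j)
    have h2 := hz j
    rw [hh] at h2
    simp only at h2
    linarith
  have hrec := no_recession hv b h hle hno
  -- positive minimum on the sphere
  have hcomp : IsCompact (Metric.sphere (0 : ℝ × ℝ) 1) := isCompact_sphere _ _
  have hne : (Metric.sphere (0 : ℝ × ℝ) 1).Nonempty := by
    refine ⟨(1, 0), ?_⟩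
    simp [Prod.norm_def]
  have hcont : Continuous fun d : ℝ × ℝ =>
      Finset.univ.sup' (Finset.univ_nonempty (α := Fin (K + 1))) (fun j => dot (b j) d) :=
    Continuous.finset_sup'_apply _ fun j _ => dot_continuous (b j)
  obtain ⟨d0, hd0, hmin⟩ := hcomp.exists_isMinOn hne hcont.continuousOn
  obtain ⟨κ, hκ⟩ : ∃ κ : ℝ, κ = Finset.univ.sup' (Finset.univ_nonempty (α := Fin (K + 1)))
    (fun j => dot (b j) d0) := ⟨_, rfl⟩
  have hκ0 : 0 < κ := by
    obtain ⟨j, hj⟩ := hrec d0 (by rintro rfl; simp at hd0)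
    rw [hκ]
    exact hj.trans_le (Finset.le_sup' (fun j => dot (b j) d0) (Finset.mem_univ j))
  obtain ⟨H, hH⟩ : ∃ H : ℝ, H = ∑ j, (|h j| + 1) := ⟨_, rfl⟩
  have hHj : ∀ j, h j + 1 ≤ H := by
    intro j
    have := Finset.single_le_sum (f := fun j => |h j| + 1)
      (fun j _ => by have := abs_nonneg (h j); linarith) (Finset.mem_univ j)
    have := le_abs_self (h j)
    rw [hH]; linarith
  have hbound : ∀ x : ℝ × ℝ, (∀ j, dot (b j) x ≤ h j + 1) → ‖x‖ ≤ |H| / κ := by
    intro x hx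
    rcases eq_or_ne x 0 with rfl | hx0
    · rw [norm_zero]; positivity
    · have hxn : 0 < ‖x‖ := norm_pos_iff.mpr hx0
      have hmem : (‖x‖⁻¹) • x ∈ Metric.sphere (0 : ℝ × ℝ) 1 := by
        rw [mem_sphere_zero_iff_norm, norm_smul, norm_inv, norm_norm]
        field_simp
      have h1 := hmin hmem
      simp only [Set.mem_setOf_eq] at h1
      rw [← hκ] at h1
      obtain ⟨j, -, hj⟩ := Finset.exists_mem_eq_sup' (Finset.univ_nonempty (α := Fin (K + 1)))
        (fun j => dot (b j) ((‖x‖⁻¹) • x))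
      rw [hj] at h1
      have h2 : dot (b j) ((‖x‖⁻¹) • x) = ‖x‖⁻¹ * dot (b j) x := by
        simp only [dot, Prod.smul_fst, Prod.smul_snd, smul_eq_mul]; ring
      rw [h2] at h1
      have h3 : κ * ‖x‖ ≤ dot (b j) x := by
        have := mul_le_mul_of_nonneg_right h1 hxn.le
        rwa [mul_comm (‖x‖⁻¹) _, mul_assoc, inv_mul_cancel₀ hxn.ne', mul_one] at this
      rw [le_div_iff₀ hκ0]
      have := hx j
      have := hHj j
      have := le_abs_self H
      linarith
  have hfin : {z : ℤ × ℤ | (∀ j, dot (b j) (toR z) ≤ h j + 1) ∧ toR z ∉ poly v}.Finite := by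
    apply ((Set.finite_Icc (-⌈|H| / κ⌉) ⌈|H| / κ⌉).prod
      (Set.finite_Icc (-⌈|H| / κ⌉) ⌈|H| / κ⌉)).subset
    rintro z ⟨hz, -⟩
    have h0 := hbound _ hz
    rw [Prod.norm_def, max_le_iff, Real.norm_eq_abs, Real.norm_eq_abs, abs_le, abs_le] at h0
    have hc := Int.le_ceil (|H| / κ)
    simp only [toR] at h0
    obtain ⟨⟨g1, g2⟩, ⟨g3, g4⟩⟩ := h0
    refine ⟨⟨?_, ?_⟩, ⟨?_, ?_⟩⟩
    · have : (-⌈|H| / κ⌉ : ℝ) ≤ z.1 := by linarith
      exact_mod_cast this
    · have : (z.1 : ℝ) ≤ ⌈|H| / κ⌉ := by linarith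
      exact_mod_cast this
    · have : (-⌈|H| / κ⌉ : ℝ) ≤ z.2 := by linarith
      exact_mod_cast this
    · have : (z.2 : ℝ) ≤ ⌈|H| / κ⌉ := by linarith
      exact_mod_cast this
  have hfin' : Finite {z : ℤ × ℤ | (∀ j, dot (b j) (toR z) ≤ h j + 1) ∧ toR z ∉ poly v} := hfin
  have hbad : ∀ z : {z : ℤ × ℤ | (∀ j, dot (b j) (toR z) ≤ h j + 1) ∧ toR z ∉ poly v},
      ∃ j, h j < dot (b j) (toR z.1) := by
    rintro ⟨z, _, hz2⟩
    by_contra hc
    push Not at hc
    exact hz2 (hno z hc)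
  choose g hg using hbad
  obtain ⟨δ, hδ0, hδ⟩ := exists_pos_le (fun z => dot (b (g z)) (toR z.1) - h (g z))
    (fun z => by have := hg z; linarith)
  obtain ⟨η, hη⟩ : ∃ η : ℝ, η = min 1 (δ / 2) := ⟨_, rfl⟩
  have hη0 : 0 < η := by rw [hη]; exact lt_min one_pos (by linarith)
  have hη1 : η ≤ 1 := by rw [hη]; exact min_le_left _ _
  have hηδ : η < δ := by rw [hη]; exact (min_le_right _ _).trans_lt (by linarith)
  refine ⟨{x | ∀ j, dot (b j) x ≤ h j + η}, ⟨?_, ⟨{x | ∀ j, dot (b j) x < h j + η}, ?_, ?_, ?_⟩,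
    ?_⟩, ⟨b, fun j => h j + η, rfl⟩⟩
  · apply (Metric.isBounded_closedBall (x := (0 : ℝ × ℝ)) (r := |H| / κ)).subset
    intro x hx
    rw [mem_closedBall_zero_iff]
    exact hbound x fun j => (hx j).trans (by linarith)
  · have : {x : ℝ × ℝ | ∀ j, dot (b j) x < h j + η} = ⋂ j, {x | dot (b j) x < h j + η} := by
      ext x; simp
    rw [this]
    exact isOpen_iInter_of_finite fun j => isOpen_lt (dot_continuous _) continuous_const
  · intro x hx j
    have hconv : Convex ℝ {y : ℝ × ℝ | dot (b j) y ≤ h j} := by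
      intro y hy z hz s t hs ht hst
      simp only [Set.mem_setOf_eq, dot, Prod.fst_add, Prod.snd_add, Prod.smul_fst,
        Prod.smul_snd, smul_eq_mul] at *
      have q1 := mul_le_mul_of_nonneg_left hy hs
      have q2 := mul_le_mul_of_nonneg_left hz ht
      have q3 : s * h j + t * h j = h j := by rw [← add_mul, hst, one_mul]
      linarith
    have := convexHull_min (s := Set.range fun i => toR (v i)) (t := {y | dot (b j) y ≤ h j})
      (by rintro _ ⟨i, rfl⟩; exact hle j i) hconv hx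
    have h2 : dot (b j) x ≤ h j := this
    linarith
  · intro x hx j
    exact (hx j).le
  · intro z hz
    by_contra hc
    have hz1 : ∀ j, dot (b j) (toR z) ≤ h j + 1 := fun j => (hz j).trans (by linarith)
    have h1 := hδ ⟨z, hz1, hc⟩
    have h2 := hz (g ⟨z, hz1, hc⟩)
    simp only at h1
    linarith

end H230R2.Sail
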